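import Pool.Agent.Lib.MP_81b71e_H.Spec

/-!
# MP_81b71e_al, theorem K: all tasks at once
-/

set_option autoImplicit false
set_option linter.unusedSectionVars false

namespace MP81H

open Pool.Agent.Lib.MP_81b71e_al

universe u

namespace AmgAux

variable {V : Type u} [Lab V]

private theorem sg_mono {x y : V} (h : x ≤ y) : sg x ≤ sg y := by
  have h1 : x ⊔ y = y := sup_eq_right.mpr h
  have h2 := sg_sup x y
  rw [h1] at h2
  rw [h2]
  exact le_sup_left

open Classical in
/-- the least distance -/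
private noncomputable def ll {X : Type u} (f g : X → V) : V :=
  if h : ∃ u, ∀ v, sg (f u) ⊔ g u ≤ sg (f v) ⊔ g v then
    sg (f (Classical.choose h)) ⊔ g (Classical.choose h) else ⊥

private theorem ll_spec {X : Type u} (f g : X → V)
    (h : ∃ u, ∀ v, sg (f u) ⊔ g u ≤ sg (f v) ⊔ g v) :
    (∀ v, ll f g ≤ sg (f v) ⊔ g v) ∧ ∃ u, ll f g = sg (f u) ⊔ g u := by
  have h1 : ll f g = sg (f (Classical.choose h)) ⊔ g (Classical.choose h) := by
    unfold ll
    rw [dif_pos h]
  constructor
  · intro v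
    rw [h1]
    exact Classical.choose_spec h v
  · exact ⟨_, h1⟩

/-- the tasks -/
private abbrev Tk {X : Type u} (B : Type u) (d : X → X → V) : Type u :=
  {τ : (B → B → V) × (B → X → V) // IsTask d τ.1 τ.2}

/-- the type of a new point -/
private def ff {X B : Type u} {d : X → X → V} (y : Tk B d × B) : X → V := y.1.1.2 y.2

open Classical in
/-- the distance of new points -/
private noncomputable def nn {X B : Type u} {d : X → X → V} (y z : Tk B d × B) : V :=
  if y.1 = z.1 then y.1.1.1 y.2 z.2 else ll (ff y) (ff z)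

private theorem nn_same {X B : Type u} {d : X → X → V} (y z : Tk B d × B) (h : y.1 = z.1) :
    nn y z = y.1.1.1 y.2 z.2 := by
  unfold nn
  rw [if_pos h]

private theorem nn_diff {X B : Type u} {d : X → X → V} (y z : Tk B d × B) (h : y.1 ≠ z.1) :
    nn y z = ll (ff y) (ff z) := by
  unfold nn
  rw [if_neg h]

private theorem tyf {X B : Type u} {d : X → X → V} (y : Tk B d × B) : Ty d (ff y) :=
  y.1.2.ty y.2

section facts

variable {X B : Type u} {d : X → X → V} (hd : IsSp d) (h1 : S_Typ.{u}) (h2 : S_Lst.{u})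
include hd h1 h2

private theorem sp1 (y : Tk B d × B) (u v : X) : ff y u ≤ d u v ⊔ ff y v :=
  (h1 V X d hd (ff y) (tyf y)).1 u v

private theorem sp2 (y : Tk B d × B) (u v : X) : d u v ≤ ff y u ⊔ sg (ff y v) :=
  (h1 V X d hd (ff y) (tyf y)).2 u v

private theorem lls (y z : Tk B d × B) :
    (∀ v, ll (ff y) (ff z) ≤ sg (ff y v) ⊔ ff z v) ∧ ∃ u, ll (ff y) (ff z) = sg (ff y u) ⊔ ff z u :=
  ll_spec _ _ (h2 V X d hd (ff y) (ff z) (tyf y) (tyf z))

private theorem n4 (y z : Tk B d × B) (u : X) : nn y z ≤ sg (ff y u) ⊔ ff z u := by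
  by_cases h : y.1 = z.1
  · rw [nn_same y z h]
    obtain ⟨τ, b⟩ := y
    obtain ⟨τ', b'⟩ := z
    have h' : τ = τ' := h
    subst h'
    exact τ.2.st2 b b' u
  · rw [nn_diff y z h]
    exact (lls hd h1 h2 y z).1 u

private theorem n3 (y z : Tk B d × B) (u : X) : ff z u ≤ ff y u ⊔ nn y z := by
  by_cases h : y.1 = z.1
  · rw [nn_same y z h]
    obtain ⟨τ, b⟩ := y
    obtain ⟨τ', b'⟩ := z
    have h' : τ = τ' := h
    subst h'
    exact τ.2.st1 b b' u
  · rw [nn_diff y z h]
    obtain ⟨v, hv⟩ := (lls hd h1 h2 y z).2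
    rw [hv]
    calc ff z u ≤ d u v ⊔ ff z v := sp1 hd h1 h2 z u v
      _ ≤ (ff y u ⊔ sg (ff y v)) ⊔ ff z v := sup_le_sup_right (sp2 hd h1 h2 y u v) _
      _ = ff y u ⊔ (sg (ff y v) ⊔ ff z v) := sup_assoc _ _ _

private theorem nself (y : Tk B d × B) : nn y y = ⊥ := by
  rw [nn_same y y rfl]
  exact y.1.2.sp.self y.2

private theorem nsymm (y z : Tk B d × B) : nn z y = sg (nn y z) := by
  by_cases h : y.1 = z.1
  · rw [nn_same y z h, nn_same z y h.symm]
    obtain ⟨τ, b⟩ := y
    obtain ⟨τ', b'⟩ := z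
    have h' : τ = τ' := h
    subst h'
    exact τ.2.sp.symm b b'
  · rw [nn_diff y z h, nn_diff z y (Ne.symm h)]
    have key : ∀ y z : Tk B d × B, ll (ff z) (ff y) ≤ sg (ll (ff y) (ff z)) := by
      intro y z
      obtain ⟨u, hu⟩ := (lls hd h1 h2 y z).2
      rw [hu, sg_sup, sg_sg, sup_comm]
      exact (lls hd h1 h2 z y).1 u
    apply le_antisymm (key y z)
    have h3 := sg_mono (key z y)
    rwa [sg_sg] at h3

private theorem n3' (y z : Tk B d × B) (u : X) : sg (ff y u) ≤ nn y z ⊔ sg (ff z u) := by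
  have h3 := sg_mono (n3 hd h1 h2 z y u)
  rw [sg_sup, ← nsymm hd h1 h2 z y, sup_comm] at h3
  exact h3

private theorem ntri (y z w : Tk B d × B) : nn y w ≤ nn y z ⊔ nn z w := by
  by_cases hyz : y.1 = z.1
  · by_cases hzw : z.1 = w.1
    · rw [nn_same y z hyz, nn_same z w hzw, nn_same y w (hyz.trans hzw)]
      obtain ⟨τ, b⟩ := y
      obtain ⟨τ', b'⟩ := z
      obtain ⟨τ'', b''⟩ := w
      have e1 : τ = τ' := hyz
      have e2 : τ' = τ'' := hzw
      subst e1
      subst e2
      exact τ.2.sp.tri b b' b''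
    · obtain ⟨u, hu⟩ := (lls hd h1 h2 z w).2
      rw [nn_diff z w hzw, hu, ← sup_assoc]
      exact le_trans (n4 hd h1 h2 y w u) (sup_le_sup_right (n3' hd h1 h2 y z u) _)
  · obtain ⟨u, hu⟩ := (lls hd h1 h2 y z).2
    rw [nn_diff y z hyz, hu, sup_assoc]
    exact le_trans (n4 hd h1 h2 y w u) (sup_le_sup_left (n3 hd h1 h2 z w u) _)

end facts

/-- the distance on the amalgam -/
private noncomputable def dd {X B : Type u} (d : X → X → V) :
    X ⊕ (Tk B d × B) → X ⊕ (Tk B d × B) → V
  | Sum.inl u, Sum.inl v => d u v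
  | Sum.inl u, Sum.inr y => ff y u
  | Sum.inr y, Sum.inl u => sg (ff y u)
  | Sum.inr y, Sum.inr z => nn y z

private theorem dd_sp {X B : Type u} {d : X → X → V} (hd : IsSp d) (h1 : S_Typ.{u})
    (h2 : S_Lst.{u}) : IsSp (dd (B := B) d) where
  self := by
    rintro (u | y)
    · exact hd.self u
    · exact nself hd h1 h2 y
  symm := by
    rintro (u | y) (v | z)
    · exact hd.symm u v
    · rfl
    · exact (sg_sg _).symm
    · exact nsymm hd h1 h2 y z
  tri := by
    rintro (x | x) (y | y) (z | z)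
    · exact hd.tri x y z
    · exact sp1 hd h1 h2 z x y
    · exact sp2 hd h1 h2 y x z
    · exact n3 hd h1 h2 y z x
    · show sg (ff x z) ≤ sg (ff x y) ⊔ d y z
      have h3 := sg_mono (sp1 hd h1 h2 x z y)
      rw [sg_sup, ← hd.symm z y, sup_comm] at h3
      exact h3
    · exact n4 hd h1 h2 x z y
    · exact n3' hd h1 h2 x y z
    · exact ntri hd h1 h2 x y z

end AmgAux

private theorem ty_one {V : Type u} [Lab V] {X : Type u} {d : X → X → V} (hd : IsSp d) (w : X)
    (s : V) (f : X → V) (hf : ∀ u, f u = d u w ⊔ s) : Ty d f := by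
  have h0 : sg (d w w) = ⊥ := by rw [← hd.symm, hd.self]
  refine ⟨w, w, s, s, ?_, le_sup_right, le_sup_right, fun u => ⟨(hf u).le, (hf u).le, Or.inl (hf u)⟩⟩
  rw [h0]
  exact bot_le

open AmgAux in
theorem tAmg (h1 : S_Typ.{u}) (h2 : S_Lst.{u}) : S_Amg.{u} := by
  intro V X B _ d hd
  refine ⟨X ⊕ (Tk B d × B), dd d, Sum.inl, dd_sp hd h1 h2, fun _ _ => rfl, ?_, ?_⟩
  · rintro (x | y)
    · refine ty_one hd x ⊥ _ (fun u => ?_)
      show d u x = d u x ⊔ ⊥
      rw [sup_bot_eq]
    · exact tyf y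
  · intro Y D f i hi hT
    rcases isEmpty_or_nonempty Y with hY | hY
    · exact ⟨fun y => (hY.false y).elim, fun y => (hY.false y).elim, fun y => (hY.false y).elim⟩
    · have hr : ∀ y, Function.invFun i (i y) = y := Function.leftInverse_invFun hi
      have hτ : IsTask d (fun b b' => D (Function.invFun i b) (Function.invFun i b'))
          (fun b => f (Function.invFun i b)) :=
        { sp :=
            { self := fun b => hT.sp.self _
              symm := fun b b' => hT.sp.symm _ _
              tri := fun b b' b'' => hT.sp.tri _ _ _ }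
          ty := fun b => hT.ty _
          st1 := fun b b' u => hT.st1 _ _ u
          st2 := fun b b' u => hT.st2 _ _ u }
      refine ⟨fun y => Sum.inr (⟨(fun b b' => D (Function.invFun i b) (Function.invFun i b'),
        fun b => f (Function.invFun i b)), hτ⟩, i y), ?_, ?_⟩
      · intro y z
        show nn _ _ = D y z
        refine (nn_same _ _ ?_).trans ?_
        · rfl
        · show D (Function.invFun i (i y)) (Function.invFun i (i z)) = D y z
          rw [hr, hr]
      · intro y u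
        show f (Function.invFun i (i y)) u = f y u
        rw [hr]

end MP81H
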