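import Mathlib
import Pool.Agent.Lib.MP_81b71e_al.Basic

/-!
# MP_81b71e_al, theorem K*: definitions

Labels: join semilattices with `⊥` and an involution `sg` which satisfy a comparison law. Spaces:
sets with (pseudo) distances in a label semilattice, `d y x = sg (d x y)`.
-/

set_option autoImplicit false

namespace MP81H

universe u v

/-- A label semilattice: a join semilattice with least element and an involutive automorphism `sg`
which satisfies the comparison law `cl`. -/
class Lab (V : Type u) extends SemilatticeSup V, OrderBot V where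
  /-- the involution -/
  sg : V → V
  sg_sg : ∀ x : V, sg (sg x) = x
  sg_sup : ∀ x y : V, sg (x ⊔ y) = sg x ⊔ sg y
  cl : ∀ t r q g k : V, r ≤ q ⊔ sg t → q ≤ r ⊔ t → t ≤ sg r ⊔ q → sg t ≤ k → k ≤ sg t ⊔ g →
    g ≤ t ⊔ k → r ⊔ g ≤ q ⊔ k ∨ q ⊔ k ≤ r ⊔ g

export Lab (sg sg_sg sg_sup)

/-- Homomorphisms of label semilattices. -/
structure IsHom {V W : Type u} [Lab V] [Lab W] (F : V → W) : Prop where
  sup : ∀ x y, F (x ⊔ y) = F x ⊔ F y
  bot : F ⊥ = ⊥
  sg : ∀ x, F (Lab.sg x) = Lab.sg (F x)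

/-- `d` is a (pseudo) distance on `X` with labels in `V`. -/
structure IsSp {V : Type u} [Lab V] {X : Type v} (d : X → X → V) : Prop where
  self : ∀ x, d x x = ⊥
  symm : ∀ x y, d y x = sg (d x y)
  tri : ∀ x y z, d x z ≤ d x y ⊔ d y z

/-- The admissible types of points over the space `X`: `f u` is the distance from `u` to the new
point, and this is the smaller one of `d u c ⊔ g` and `d u e ⊔ k` (which are comparable by the
comparison law). -/
def Ty {V : Type u} [Lab V] {X : Type u} (d : X → X → V) (f : X → V) : Prop :=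
  ∃ c e g k, sg (d c e) ≤ k ∧ k ≤ sg (d c e) ⊔ g ∧ g ≤ d c e ⊔ k ∧
    ∀ u, f u ≤ d u c ⊔ g ∧ f u ≤ d u e ⊔ k ∧ (f u = d u c ⊔ g ∨ f u = d u e ⊔ k)

/-- A space `Y` (distance `D`) which can be glued to `X`; `f y u` is the distance from `u` to `y`. -/
structure IsTask {V : Type u} [Lab V] {X Y : Type u} (d : X → X → V) (D : Y → Y → V)
    (f : Y → X → V) : Prop where
  sp : IsSp D
  ty : ∀ y, Ty d (f y)
  st1 : ∀ y z u, f z u ≤ f y u ⊔ D y z
  st2 : ∀ y z u, D y z ≤ sg (f y u) ⊔ f z u

/-- An increasing sequence of spaces. -/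
structure Tower (V : Type u) [Lab V] where
  X : ℕ → Type u
  d : ∀ n, X n → X n → V
  j : ∀ n, X n → X (n + 1)
  sp : ∀ n, IsSp (d n)
  iso : ∀ n x y, d (n + 1) (j n x) (j n y) = d n x y

/-- `Z` (with the maps `e n`) is the limit of the tower (up to points at distance `⊥`). -/
structure IsLim {V : Type u} [Lab V] (T : Tower V) {Z : Type u} (D : Z → Z → V)
    (e : ∀ n, T.X n → Z) : Prop where
  sp : IsSp D
  iso : ∀ n x y, D (e n x) (e n y) = T.d n x y
  comp : ∀ n x, D (e n x) (e (n + 1) (T.j n x)) = ⊥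
  surj : ∀ z, ∃ n x, e n x = z

/-- A pseudo space over the algebraic lattice `L`, from which the lattice can be realized. -/
structure GSp {L : Type u} [CompleteLattice L] (θ : L ≃o L) {A : Type u} (d : A → A → L) : Prop where
  comp : ∀ x y, IsCompactElement (d x y)
  self : ∀ x, d x x = ⊥
  symm : ∀ x y, d y x = θ (d x y)
  tri : ∀ x y z, d x z ≤ d x y ⊔ d y z
  all : ∀ s, IsCompactElement s → ∃ x y, d x y = s
  gen : ∀ r : A → A → Prop, (∀ x y, d x y = ⊥ → r x y) → (∀ x y z, r x y → r y z → r x z) →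
    (∀ f : A → A, (∀ p q, d (f p) (f q) ≤ d p q) → ∀ x y, r x y → r (f x) (f y)) →
    ∀ (T : Finset (A × A)) (x y : A), (∀ p ∈ T, r p.1 p.2) → d x y ≤ T.sup (fun p => d p.1 p.2) →
      r x y

end MP81H
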