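import Pool.Agent.Lib.MP_81b71e_H.Spec

/-!
# MP_81b71e_al, theorem K, module Jgd: the join gadget (helper84)
-/

set_option autoImplicit false

namespace MP81H

universe u

private theorem ty_one {V : Type u} [Lab V] {X : Type u} {d : X → X → V} (hd : IsSp d) (w : X)
    (s : V) (f : X → V) (hf : ∀ u, f u = d u w ⊔ s) : Ty d f := by
  have h0 : sg (d w w) = ⊥ := by rw [← hd.symm, hd.self]
  refine ⟨w, w, s, s, ?_, le_sup_right, le_sup_right, fun u => ⟨(hf u).le, (hf u).le, Or.inl (hf u)⟩⟩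
  rw [h0]
  exact bot_le

namespace JgdAux

theorem sg_mono {V : Type u} [Lab V] {x y : V} (h : x ≤ y) : sg x ≤ sg y := by
  rw [← sup_eq_right] at h ⊢
  rw [← sg_sup, h]

variable {V : Type u} [Lab V]

/-- the distances of the three points -/
def DD (t₁ t₂ κ : V) : Fin 3 → Fin 3 → V
  | 0, 0 => ⊥
  | 0, 1 => t₂
  | 0, 2 => κ
  | 1, 0 => sg t₂
  | 1, 1 => ⊥
  | 1, 2 => t₁
  | 2, 0 => κ
  | 2, 1 => sg t₁
  | 2, 2 => ⊥

/-- the distances from the given space -/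
def FF {X : Type u} (d : X → X → V) (a b : X) (t₁ t₂ κ : V) : Fin 3 → X → V
  | 0, u => d u a ⊔ t₁
  | 1, u => d u a ⊔ κ
  | 2, u => d u b ⊔ sg t₂

theorem sg_bot : sg (⊥ : V) = ⊥ := by
  have h : (⊥ : V) ≤ sg (⊥ : V) := bot_le
  have h2 := sg_mono h
  rw [sg_sg] at h2
  exact le_antisymm h2 bot_le

variable {t₁ t₂ κ : V}

theorem DD_symm (hs : sg κ = κ) : ∀ i j : Fin 3, DD t₁ t₂ κ j i = sg (DD t₁ t₂ κ i j)
  | 0, 0 => sg_bot.symm
  | 0, 1 => rfl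
  | 0, 2 => hs.symm
  | 1, 0 => (sg_sg t₂).symm
  | 1, 1 => sg_bot.symm
  | 1, 2 => rfl
  | 2, 0 => hs.symm
  | 2, 1 => (sg_sg t₁).symm
  | 2, 2 => sg_bot.symm

theorem DD_tri (h1 : t₁ ≤ κ) (h2 : t₂ ≤ κ) (h3 : sg t₁ ≤ κ) (h4 : sg t₂ ≤ κ)
    (h5 : κ ≤ t₂ ⊔ t₁) (h6 : κ ≤ sg t₁ ⊔ sg t₂) :
    ∀ i j k : Fin 3, DD t₁ t₂ κ i k ≤ DD t₁ t₂ κ i j ⊔ DD t₁ t₂ κ j k
  | 0, _, 0 => bot_le
  | 1, _, 1 => bot_le
  | 2, _, 2 => bot_le
  | 0, 0, 1 => le_sup_right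
  | 0, 0, 2 => le_sup_right
  | 1, 1, 0 => le_sup_right
  | 1, 1, 2 => le_sup_right
  | 2, 2, 0 => le_sup_right
  | 2, 2, 1 => le_sup_right
  | 0, 1, 1 => le_sup_left
  | 0, 2, 2 => le_sup_left
  | 1, 0, 0 => le_sup_left
  | 1, 2, 2 => le_sup_left
  | 2, 0, 0 => le_sup_left
  | 2, 1, 1 => le_sup_left
  | 0, 1, 2 => h5
  | 0, 2, 1 => le_sup_of_le_left h2
  | 1, 0, 2 => le_sup_of_le_right h1
  | 1, 2, 0 => le_sup_of_le_right h4
  | 2, 0, 1 => le_sup_of_le_left h3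
  | 2, 1, 0 => h6

end JgdAux

open JgdAux in
/-- **Jgd** -/
theorem tJgd : S_Jgd := by
  intro V X _ d hd a b t₁ t₂ hs hab
  have h1 : t₁ ≤ t₁ ⊔ t₂ := le_sup_left
  have h2 : t₂ ≤ t₁ ⊔ t₂ := le_sup_right
  have h3 : sg t₁ ≤ t₁ ⊔ t₂ := hs ▸ sg_mono h1
  have h4 : sg t₂ ≤ t₁ ⊔ t₂ := hs ▸ sg_mono h2
  have h5 : t₁ ⊔ t₂ ≤ t₂ ⊔ t₁ := (sup_comm t₁ t₂).le
  have h6 : t₁ ⊔ t₂ ≤ sg t₁ ⊔ sg t₂ := by
    rw [← sg_sup, hs]
  have hba : d b a ≤ t₁ ⊔ t₂ := by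
    rw [hd.symm a b, ← hs]
    exact sg_mono hab
  generalize t₁ ⊔ t₂ = κ at *
  have hub : ∀ u, d u b ≤ d u a ⊔ κ := fun u => (hd.tri u a b).trans (sup_le_sup_left hab _)
  have hua : ∀ u, d u a ≤ d u b ⊔ κ := fun u => (hd.tri u b a).trans (sup_le_sup_left hba _)
  have st1 : ∀ (i j : Fin 3) (u : X), FF d a b t₁ t₂ κ j u ≤ FF d a b t₁ t₂ κ i u ⊔
      DD t₁ t₂ κ i j := by
    intro i j u
    match i, j with
    | 0, 0 => exact le_sup_left
    | 1, 1 => exact le_sup_left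
    | 2, 2 => exact le_sup_left
    | 0, 1 =>
      refine sup_le (le_sup_of_le_left le_sup_left) (h5.trans (sup_le le_sup_right ?_))
      exact le_sup_of_le_left le_sup_right
    | 0, 2 =>
      refine sup_le ((hub u).trans (sup_le (le_sup_of_le_left le_sup_left) le_sup_right)) ?_
      exact h4.trans le_sup_right
    | 1, 0 =>
      exact sup_le (le_sup_of_le_left le_sup_left) (le_sup_of_le_left (h1.trans le_sup_right))
    | 1, 2 =>
      exact le_sup_of_le_left (sup_le (hub u) (h4.trans le_sup_right))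
    | 2, 0 =>
      refine sup_le ((hua u).trans (sup_le (le_sup_of_le_left le_sup_left) le_sup_right)) ?_
      exact h1.trans le_sup_right
    | 2, 1 =>
      have h7 : κ ≤ FF d a b t₁ t₂ κ 2 u ⊔ DD t₁ t₂ κ 2 1 :=
        h6.trans (sup_le le_sup_right (le_sup_of_le_left le_sup_right))
      exact sup_le ((hua u).trans (sup_le (le_sup_of_le_left le_sup_left) h7)) h7
  have st2 : ∀ (i j : Fin 3) (u : X), DD t₁ t₂ κ i j ≤ sg (FF d a b t₁ t₂ κ i u) ⊔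
      FF d a b t₁ t₂ κ j u := by
    intro i j u
    have hk : κ ≤ sg (FF d a b t₁ t₂ κ 1 u) := by
      have := sg_mono (V := V) (x := κ) (y := FF d a b t₁ t₂ κ 1 u) le_sup_right
      rwa [hs] at this
    match i, j with
    | 0, 0 => exact bot_le
    | 1, 1 => exact bot_le
    | 2, 2 => exact bot_le
    | 0, 1 => exact le_sup_of_le_right (h2.trans le_sup_right)
    | 0, 2 =>
      refine h6.trans (sup_le (le_sup_of_le_left (sg_mono le_sup_right)) ?_)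
      exact le_sup_of_le_right le_sup_right
    | 1, 0 => exact le_sup_of_le_left (h4.trans hk)
    | 1, 2 => exact le_sup_of_le_left (h1.trans hk)
    | 2, 0 =>
      refine h5.trans (sup_le (le_sup_of_le_left ?_) (le_sup_of_le_right le_sup_right))
      have := sg_mono (V := V) (x := sg t₂) (y := FF d a b t₁ t₂ κ 2 u) le_sup_right
      rwa [sg_sg] at this
    | 2, 1 => exact le_sup_of_le_right (h3.trans le_sup_right)
  refine ⟨fun y z => DD t₁ t₂ κ y.2 z.2, fun y => FF d a b t₁ t₂ κ y.2,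
    ⟨⟨?_, ?_, ?_⟩, ?_, ?_, ?_⟩, (a, 0), (a, 1), (a, 2), ?_, rfl, rfl, ?_⟩
  · rintro ⟨x, i⟩
    change DD t₁ t₂ κ i i = ⊥
    match i with
    | 0 => rfl
    | 1 => rfl
    | 2 => rfl
  · exact fun y z => DD_symm hs y.2 z.2
  · exact fun x y z => DD_tri h1 h2 h3 h4 h5 h6 x.2 y.2 z.2
  · rintro ⟨x, i⟩
    match i with
    | 0 => exact ty_one hd a t₁ _ (fun u => rfl)
    | 1 => exact ty_one hd a κ _ (fun u => rfl)
    | 2 => exact ty_one hd b (sg t₂) _ (fun u => rfl)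
  · exact fun y z u => st1 y.2 z.2 u
  · exact fun y z u => st2 y.2 z.2 u
  · change d a a ⊔ t₁ = t₁
    rw [hd.self, bot_sup_eq]
  · change d b b ⊔ sg t₂ = sg t₂
    rw [hd.self, bot_sup_eq]

end MP81H
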