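import Pool.Agent.Lib.MP_81b71e_H.Spec
import Pool.Agent.Lib.MP_81b71e_al.Cd.Ext

/-!
# MP_81b71e_al: theorem K from the saturated spaces
-/

set_option autoImplicit false

namespace MP81H

open Pool.Agent.Lib.MP_81b71e_al

universe u

namespace Ker

section lab

variable {V : Type u} [Lab V]

theorem sg_mono {x y : V} (h : x ≤ y) : sg x ≤ sg y := by
  rw [← sup_eq_right] at h ⊢
  rw [← sg_sup, h]

theorem sg_bot : sg (⊥ : V) = ⊥ := by
  apply le_antisymm _ bot_le
  have h := sg_mono (bot_le : (⊥ : V) ≤ sg ⊥)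
  rwa [sg_sg] at h

variable {Z : Type u} {D : Z → Z → V}

theorem claim1 (hsp : IsSp D)
    (hH : ∀ a b c e : Z, D c e ≤ D a b → (sg (D a b) = D a b ∨ D c e = D a b) →
      Relation.ReflTransGen (fun x y => D x y = ⊥ ∨ ∃ f : Z → Z,
        (∀ p q, D (f p) (f q) = D p q) ∧ D (f a) x = ⊥ ∧ D (f b) y = ⊥) c e)
    (r : Z → Z → Prop) (hbot : ∀ x y, D x y = ⊥ → r x y) (htr : ∀ x y z, r x y → r y z → r x z)
    (hctr : ∀ f : Z → Z, (∀ p q, D (f p) (f q) ≤ D p q) → ∀ x y, r x y → r (f x) (f y))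
    (hP : ∀ x y : V, sg x ≠ x → y < x → y ≠ ⊥ → ∃ P : V → V, IsHom P ∧ (∀ z, P z ≤ z) ∧
      (∃ f : Z → Z, ∀ p q, D (f p) (f q) = P (D p q)) ∧ y ≤ P x ∧ (sg (P x) = P x ∨ P x = y))
    (a b c e : Z) (hab : r a b) (h : D c e ≤ D a b) : r c e := by
  have base : ∀ a b c e : Z, r a b → D c e ≤ D a b → (sg (D a b) = D a b ∨ D c e = D a b) →
      r c e := by
    intro a b c e hab h h0
    have h1 := hH a b c e h h0
    clear h h0
    induction h1 with
    | refl => exact hbot _ _ (hsp.self c)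
    | tail _ hxy ih =>
      refine htr _ _ _ ih ?_
      rcases hxy with hxy | ⟨f, hf, hx, hy⟩
      · exact hbot _ _ hxy
      · refine htr _ _ _ (hbot _ _ ?_)
          (htr _ _ _ (hctr f (fun p q => (hf p q).le) a b hab) (hbot _ _ hy))
        rw [hsp.symm, hx, sg_bot]
  by_cases h0 : sg (D a b) = D a b ∨ D c e = D a b
  · exact base a b c e hab h h0
  · rw [not_or] at h0
    by_cases hb : D c e = ⊥
    · exact hbot _ _ hb
    · obtain ⟨P, hP1, hP2, ⟨f, hf⟩, hP4, hP5⟩ := hP _ _ h0.1 (lt_of_le_of_ne h h0.2) hb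
      refine base (f a) (f b) c e (hctr f (fun p q => ?_) a b hab) ?_ ?_
      · rw [hf]
        exact hP2 _
      · rw [hf]
        exact hP4
      · rw [hf]
        rcases hP5 with hP5 | hP5
        · exact Or.inl hP5
        · exact Or.inr hP5.symm

theorem claim2 (hsp : IsSp D)
    (hJ : ∀ (a b : Z) (t₁ t₂ : V), D a b ≤ t₁ ⊔ t₂ →
      (sg (t₁ ⊔ t₂) = t₁ ⊔ t₂ ∨ D a b = t₁ ⊔ t₂) →
      Relation.ReflTransGen (fun x y => D x y ≤ t₁ ∨ D x y ≤ t₂) a b)
    (hH : ∀ a b c e : Z, D c e ≤ D a b → (sg (D a b) = D a b ∨ D c e = D a b) →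
      Relation.ReflTransGen (fun x y => D x y = ⊥ ∨ ∃ f : Z → Z,
        (∀ p q, D (f p) (f q) = D p q) ∧ D (f a) x = ⊥ ∧ D (f b) y = ⊥) c e)
    (r : Z → Z → Prop) (hbot : ∀ x y, D x y = ⊥ → r x y) (htr : ∀ x y z, r x y → r y z → r x z)
    (hctr : ∀ f : Z → Z, (∀ p q, D (f p) (f q) ≤ D p q) → ∀ x y, r x y → r (f x) (f y))
    (hP : ∀ x y : V, sg x ≠ x → y < x → y ≠ ⊥ → ∃ P : V → V, IsHom P ∧ (∀ z, P z ≤ z) ∧
      (∃ f : Z → Z, ∀ p q, D (f p) (f q) = P (D p q)) ∧ y ≤ P x ∧ (sg (P x) = P x ∨ P x = y))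
    (T : Finset (Z × Z)) : (∀ p ∈ T, r p.1 p.2) → ∀ c e, D c e ≤ T.sup (fun p => D p.1 p.2) →
      r c e := by
  classical
  induction T using Finset.induction_on with
  | empty =>
    intro _ c e h
    rw [Finset.sup_empty, le_bot_iff] at h
    exact hbot _ _ h
  | insert p T _ ih =>
    intro hT c e h
    rw [Finset.sup_insert] at h
    -- a path with the steps `≤ t₁`, `≤ t₂`
    have path : ∀ t₁ t₂ : V, t₁ ≤ D p.1 p.2 → t₂ ≤ T.sup (fun p => D p.1 p.2) →
        D c e ≤ t₁ ⊔ t₂ → (sg (t₁ ⊔ t₂) = t₁ ⊔ t₂ ∨ D c e = t₁ ⊔ t₂) → r c e := by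
      intro t₁ t₂ ht₁ ht₂ hle h0
      have h1 := hJ c e _ _ hle h0
      clear h hle h0
      induction h1 with
      | refl => exact hbot _ _ (hsp.self c)
      | tail _ hxy ih' =>
        refine htr _ _ _ ih' ?_
        rcases hxy with hxy | hxy
        · exact claim1 hsp hH r hbot htr hctr hP p.1 p.2 _ _ (hT p (Finset.mem_insert_self _ _))
            (hxy.trans ht₁)
        · exact ih (fun q hq => hT q (Finset.mem_insert_of_mem hq)) _ _ (hxy.trans ht₂)
    by_cases h0 : sg (D p.1 p.2 ⊔ T.sup (fun p => D p.1 p.2)) =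
        D p.1 p.2 ⊔ T.sup (fun p => D p.1 p.2) ∨ D c e = D p.1 p.2 ⊔ T.sup (fun p => D p.1 p.2)
    · exact path _ _ le_rfl le_rfl h h0
    · rw [not_or] at h0
      by_cases hb : D c e = ⊥
      · exact hbot _ _ hb
      · obtain ⟨P, hP1, hP2, -, hP4, hP5⟩ := hP _ _ h0.1 (lt_of_le_of_ne h h0.2) hb
        rw [hP1.sup] at hP4 hP5
        refine path _ _ (hP2 _) (hP2 _) hP4 ?_
        rcases hP5 with hP5 | hP5
        · exact Or.inl hP5
        · exact Or.inr hP5.symm

end lab

section lat

variable {L : Type u} [CompleteLattice L] (θ : L ≃o L) {I : Type u} (φ : I → L → L)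

/-- The hypotheses of theorem K*. -/
structure Hyp : Prop where
  th : ∀ x, θ (θ x) = x
  cp : ∀ i x, IsCompactElement x → IsCompactElement (φ i x)
  sp : ∀ i x y, IsCompactElement x → IsCompactElement y → φ i (x ⊔ y) = φ i x ⊔ φ i y
  cm : ∀ i x, IsCompactElement x → φ i (θ x) = θ (φ i x)
  le : ∀ i x, IsCompactElement x → φ i x ≤ x
  id : ∀ i x, IsCompactElement x → φ i (φ i x) = φ i x
  cv : ∀ x, IsCompactElement x → ∃ T : Finset I, x ≤ T.sup (fun i => φ i x)
  cl : ∀ i t r q g k, IsCompactElement t → IsCompactElement r → IsCompactElement q →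
      IsCompactElement g → IsCompactElement k → φ i t = t → φ i r = r → φ i q = q → φ i g = g →
      φ i k = k → r ≤ q ⊔ θ t → q ≤ r ⊔ t → t ≤ θ r ⊔ q → θ t ≤ k → k ≤ θ t ⊔ g → g ≤ t ⊔ k →
      r ⊔ g ≤ q ⊔ k ∨ q ⊔ k ≤ r ⊔ g

/-- The labels of the `i`-th space. -/
abbrev VV (i : I) : Type u := {x : L // IsCompactElement x ∧ φ i x = x}

variable {θ φ}

theorem Hyp.mono (h : Hyp θ φ) (i : I) {x y : L} (hx : IsCompactElement x)
    (hy : IsCompactElement y) (hxy : x ≤ y) : φ i x ≤ φ i y := by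
  rw [← sup_eq_right] at hxy ⊢
  rw [← h.sp i x y hx hy, hxy]

/-- The labels form a label semilattice. -/
@[reducible] def Hyp.lab (h : Hyp θ φ) (i : I) : Lab (VV φ i) :=
  { Subtype.semilatticeSup (P := fun x : L => IsCompactElement x ∧ φ i x = x) (by
      intro x y hx hy
      exact ⟨Cd.compact_sup hx.1 hy.1, by rw [h.sp i x y hx.1 hy.1, hx.2, hy.2]⟩) with
    bot := ⟨⊥, Cd.compact_bot, le_bot_iff.1 (h.le i ⊥ Cd.compact_bot)⟩
    bot_le := fun x => (bot_le : (⊥ : L) ≤ x.1)
    sg := fun x => ⟨θ x.1, Cd.compact_map θ x.2.1, by rw [h.cm i x.1 x.2.1, x.2.2]⟩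
    sg_sg := fun x => Subtype.ext (h.th x.1)
    sg_sup := fun x y => Subtype.ext (map_sup θ x.1 y.1)
    cl := fun t r q g k => h.cl i t.1 r.1 q.1 g.1 k.1 t.2.1 r.2.1 q.2.1 g.2.1 k.2.1 t.2.2 r.2.2
      q.2.2 g.2.2 k.2.2 }

/-- The homomorphisms between the labels. -/
def Hyp.F (h : Hyp θ φ) (i k : I) (x : VV φ i) : VV φ k :=
  ⟨φ k x.1, h.cp k x.1 x.2.1, h.id k x.1 x.2.1⟩

theorem Hyp.hom (h : Hyp θ φ) (i k : I) :
    @IsHom (VV φ i) (VV φ k) (h.lab i) (h.lab k) (h.F i k) :=
  letI := h.lab i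
  letI := h.lab k
  { sup := fun x y => Subtype.ext (h.sp k x.1 y.1 x.2.1 y.2.1)
    bot := Subtype.ext (le_bot_iff.1 (h.le k ⊥ Cd.compact_bot))
    sg := fun x => Subtype.ext (h.cm k x.1 x.2.1) }

theorem Hyp.sup_le (h : Hyp θ φ) (k : I) {α : Type u} (S : Finset α) (c : α → L) (w : L)
    (hc : ∀ a ∈ S, IsCompactElement (c a)) (hw : ∀ a ∈ S, φ k (c a) ≤ w) :
    φ k (S.sup c) ≤ w := by
  classical
  induction S using Finset.induction_on with
  | empty =>
    rw [Finset.sup_empty]
    exact (h.le k ⊥ Cd.compact_bot).trans bot_le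
  | insert a S _ ih =>
    rw [Finset.sup_insert, h.sp k _ _ (hc a (Finset.mem_insert_self _ _))
      (CompleteLattice.isCompactElement_finsetSup S
        fun b hb => hc b (Finset.mem_insert_of_mem hb))]
    exact _root_.sup_le (hw a (Finset.mem_insert_self _ _))
      (ih (fun b hb => hc b (Finset.mem_insert_of_mem hb))
        fun b hb => hw b (Finset.mem_insert_of_mem hb))

end lat

section prod

variable {L : Type u} [CompleteLattice L] {I : Type u} {Z : I → Type u} (D : ∀ i, Z i → Z i → L)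
  (o : ∀ i, Z i)

/-- The restricted product of the spaces. -/
abbrev AA : Type u := {x : ∀ i, Z i // {i | x i ≠ o i}.Finite}

variable {o}

/-- The distance in the product. -/
def dd (x y : AA o) : L := ⨆ i, D i (x.1 i) (y.1 i)

open Classical in
/-- Change one coordinate. -/
noncomputable def up (w : AA o) (i : I) (a : Z i) : AA o :=
  ⟨Function.update w.1 i a, by
    refine (w.2.insert i).subset ?_
    intro k hk
    by_cases hki : k = i
    · exact Or.inl hki
    · refine Or.inr ?_
      have hk' : Function.update w.1 i a k ≠ o k := hk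
      rwa [Function.update_of_ne hki] at hk'⟩

theorem up_same (w : AA o) (i : I) (a : Z i) : (up w i a).1 i = a := by
  simp [up]

theorem up_ne (w : AA o) (i : I) (a : Z i) (k : I) (h : k ≠ i) : (up w i a).1 k = w.1 k := by
  simp [up, h]

theorem up_self (w : AA o) (i : I) : up w i (w.1 i) = w := by
  apply Subtype.ext
  funext k
  by_cases h : k = i
  · subst h
    exact up_same w k _
  · exact up_ne w i _ k h

variable {D}

theorem dd_up (hself : ∀ i x, D i x x = ⊥) (w : AA o) (i : I) (a b : Z i) :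
    dd D (up w i a) (up w i b) = D i a b := by
  apply le_antisymm
  · refine iSup_le fun k => ?_
    by_cases h : k = i
    · subst h
      rw [up_same, up_same]
    · rw [up_ne w i a k h, up_ne w i b k h, hself]
      exact bot_le
  · refine le_trans (le_of_eq ?_) (le_iSup (fun k => D k ((up w i a).1 k) ((up w i b).1 k)) i)
    show D i a b = D i ((up w i a).1 i) ((up w i b).1 i)
    rw [up_same, up_same]

theorem le_dd (x y : AA o) (i : I) : D i (x.1 i) (y.1 i) ≤ dd D x y :=
  le_iSup (fun i => D i (x.1 i) (y.1 i)) i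

theorem dd_fin (hself : ∀ i x, D i x x = ⊥) (x y : AA o) (S : Finset I)
    (hx : ∀ i, i ∉ S → x.1 i = y.1 i) :
    dd D x y = S.sup fun i => D i (x.1 i) (y.1 i) := by
  apply le_antisymm
  · refine iSup_le fun i => ?_
    by_cases hi : i ∈ S
    · exact Finset.le_sup (f := fun i => D i (x.1 i) (y.1 i)) hi
    · rw [hx i hi, hself]
      exact bot_le
  · exact Finset.sup_le fun i _ => le_dd x y i

theorem exists_supp (x y : AA o) : ∃ S : Finset I, ∀ i, i ∉ S → x.1 i = o i ∧ y.1 i = o i := by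
  classical
  refine ⟨x.2.toFinset ∪ y.2.toFinset, fun i hi => ?_⟩
  rw [Finset.mem_union, Set.Finite.mem_toFinset, Set.Finite.mem_toFinset, not_or] at hi
  exact ⟨not_not.1 hi.1, not_not.1 hi.2⟩

end prod

end Ker

open Ker

theorem tKer (hSat : S_Sat.{u}) (hRlz : S_Rlz.{u}) : S_Ker.{u} := by
  classical
  intro L _ _ θ I φ hth hctr hid hcv hcl hcon
  have hcp : ∀ i x, IsCompactElement x → IsCompactElement (φ i x) := fun i => (hctr i).cp
  have hle : ∀ i x, IsCompactElement x → φ i x ≤ x := fun i => (hctr i).le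
  have H : Hyp θ φ := ⟨hth, hcp, fun i => (hctr i).sp, fun i => (hctr i).cm, hle, hid, hcv, hcl⟩
  let _ : ∀ i, Lab (VV φ i) := H.lab
  obtain ⟨Z, D, hsp, hne, hJ, hH, hX, hL⟩ := hSat I (VV φ)
  have hPP : ∀ i (x y : VV φ i), sg x ≠ x → y < x → y ≠ ⊥ → ∃ P : VV φ i → VV φ i, IsHom P ∧
      (∀ z, P z ≤ z) ∧ (∃ f : Z i → Z i, ∀ p q, D i (f p) (f q) = P (D i p q)) ∧ y ≤ P x ∧
      (sg (P x) = P x ∨ P x = y) := by
    intro i x y hx hyx hy
    obtain ⟨ψ, hψ, h1, h2⟩ := hcon i x.1 y.1 x.2.1 y.2.1 x.2.2 y.2.2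
      (fun h => hx (Subtype.ext h)) hyx (fun h => hy (Subtype.ext h))
    have hc : ∀ z : VV φ i, IsCompactElement (ψ z.1) := fun z => hψ.cp _ z.2.1
    let P : VV φ i → VV φ i := fun z => ⟨φ i (ψ z.1), hcp i _ (hc z), hid i _ (hc z)⟩
    have hP : IsHom P :=
      { sup := fun z w => Subtype.ext (by
          show φ i (ψ (z.1 ⊔ w.1)) = φ i (ψ z.1) ⊔ φ i (ψ w.1)
          rw [hψ.sp _ _ z.2.1 w.2.1, H.sp i _ _ (hc z) (hc w)])
        bot := Subtype.ext (by
          show φ i (ψ ⊥) = ⊥
          have h3 : ψ ⊥ = ⊥ := le_bot_iff.1 (hψ.le ⊥ Cd.compact_bot)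
          rw [h3]
          exact le_bot_iff.1 (hle i ⊥ Cd.compact_bot))
        sg := fun z => Subtype.ext (by
          show φ i (ψ (θ z.1)) = θ (φ i (ψ z.1))
          rw [hψ.cm _ z.2.1, H.cm i _ (hc z)]) }
    refine ⟨P, hP, fun z => (hle i _ (hc z)).trans (hψ.le _ z.2.1), hX i i P hP, ?_, ?_⟩
    · show y.1 ≤ φ i (ψ x.1)
      have h3 := H.mono i y.2.1 (hc x) h1
      rwa [y.2.2] at h3
    · rcases h2 with h2 | h2
      · left
        apply Subtype.ext
        show θ (φ i (ψ x.1)) = φ i (ψ x.1)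
        rw [← H.cm i _ (hc x), h2]
      · right
        apply Subtype.ext
        show φ i (ψ x.1) = y.1
        rw [h2]
        exact y.2.2
  let o : ∀ i, Z i := fun i => (hne i).some
  let E : ∀ i, Z i → Z i → L := fun i a b => (D i a b).1
  have hself : ∀ i x, E i x x = ⊥ := fun i x => congrArg Subtype.val ((hsp i).self x)
  have hbotV : ∀ i (a b : Z i), E i a b = ⊥ → D i a b = ⊥ := fun i a b h => Subtype.ext h
  have hEc : ∀ i a b, IsCompactElement (E i a b) := fun i a b => (D i a b).2.1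
  have hEφ : ∀ i a b, φ i (E i a b) = E i a b := fun i a b => (D i a b).2.2
  have hEle : ∀ i (a b a' b' : Z i), D i a b ≤ D i a' b' ↔ E i a b ≤ E i a' b' :=
    fun i a b a' b' => Iff.rfl
  let o' : AA o := ⟨o, by simp⟩
  refine hRlz L θ (AA o) (dd E) hth ⟨o'⟩ ?_
  refine { comp := ?_, self := ?_, symm := ?_, tri := ?_, all := ?_, gen := ?_ }
  · intro x y
    obtain ⟨S, hS⟩ := exists_supp x y
    rw [dd_fin hself x y S (fun i hi => by rw [(hS i hi).1, (hS i hi).2])]
    exact CompleteLattice.isCompactElement_finsetSup S fun i _ => hEc i _ _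
  · intro x
    exact le_bot_iff.1 (iSup_le fun i => (hself i _).le)
  · intro x y
    rw [dd, dd, θ.map_iSup]
    refine iSup_congr fun i => ?_
    exact congrArg Subtype.val ((hsp i).symm (x.1 i) (y.1 i))
  · intro x y z
    refine iSup_le fun i => ?_
    have h1 : E i (x.1 i) (z.1 i) ≤ E i (x.1 i) (y.1 i) ⊔ E i (y.1 i) (z.1 i) :=
      (hsp i).tri _ _ _
    exact h1.trans (sup_le_sup (le_dd x y i) (le_dd y z i))
  · intro s hs
    obtain ⟨T, hT⟩ := hcv s hs
    choose a b hab using fun i => hL i ⟨φ i s, hcp i s hs, hid i s hs⟩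
    have hfin : ∀ c : ∀ i, Z i, {i | (if i ∈ T then c i else o i) ≠ o i}.Finite := by
      intro c
      refine T.finite_toSet.subset fun i hi => ?_
      by_contra hiT
      have hiT' : i ∉ T := hiT
      have hi' : (if i ∈ T then c i else o i) ≠ o i := hi
      rw [if_neg hiT'] at hi'
      exact hi' rfl
    refine ⟨⟨fun i => if i ∈ T then a i else o i, hfin a⟩,
      ⟨fun i => if i ∈ T then b i else o i, hfin b⟩, ?_⟩
    have hE : ∀ i, i ∈ T → E i (a i) (b i) = φ i s := fun i _ => congrArg Subtype.val (hab i)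
    apply le_antisymm
    · refine iSup_le fun i => ?_
      show E i (if i ∈ T then a i else o i) (if i ∈ T then b i else o i) ≤ s
      by_cases hi : i ∈ T
      · rw [if_pos hi, if_pos hi, hE i hi]
        exact hle i s hs
      · rw [if_neg hi, if_neg hi, hself]
        exact bot_le
    · refine hT.trans (Finset.sup_le fun i hi => ?_)
      refine le_trans (le_of_eq ?_) (le_dd _ _ i)
      show φ i s = E i (if i ∈ T then a i else o i) (if i ∈ T then b i else o i)
      rw [if_pos hi, if_pos hi, hE i hi]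
  · intro r h1 h2 h3 T x y hT hxy
    have key : ∀ k, r (up o' k (x.1 k)) (up o' k (y.1 k)) := by
      intro k
      choose g hg using fun i => hX i k (H.F i k) (H.hom i k)
      choose SS hSS using fun p : AA o × AA o => exists_supp p.1 p.2
      have hS : ∀ p ∈ T, ∀ i, i ∉ T.biUnion SS → p.1.1 i = p.2.1 i := by
        intro p hp i hi
        have h4 : i ∉ SS p := fun h4 => hi (Finset.mem_biUnion.2 ⟨p, hp, h4⟩)
        rw [(hSS p i h4).1, (hSS p i h4).2]
      have hEg : ∀ i p q, E k (g i p) (g i q) = φ k (E i p q) := fun i p q =>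
        congrArg Subtype.val (hg i p q)
      refine claim2 (hsp k) (hJ k) (hH k) (fun a b => r (up o' k a) (up o' k b)) ?_ ?_ ?_ (hPP k)
        ((T ×ˢ T.biUnion SS).image fun q => (g q.2 (q.1.1.1 q.2), g q.2 (q.1.2.1 q.2))) ?_ _ _ ?_
      · intro a b hab
        refine h1 _ _ ?_
        rw [dd_up hself]
        exact congrArg Subtype.val hab
      · intro a b c hab hbc
        exact h2 _ _ _ hab hbc
      · intro f hf a b hab
        have h4 := h3 (fun z => up o' k (f (z.1 k))) (by
          intro p q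
          rw [dd_up hself]
          have h5 : E k (f (p.1 k)) (f (q.1 k)) ≤ E k (p.1 k) (q.1 k) := hf (p.1 k) (q.1 k)
          exact h5.trans (le_dd p q k)) _ _ hab
        simp only [up_same] at h4
        exact h4
      · intro q hq
        obtain ⟨⟨p, i⟩, hpi, rfl⟩ := Finset.mem_image.1 hq
        have hp := (Finset.mem_product.1 hpi).1
        exact h3 (fun z => up o' k (g i (z.1 i))) (by
          intro p q
          rw [dd_up hself, hEg]
          exact (hle k _ (hEc i _ _)).trans (le_dd p q i)) _ _ (hT p hp)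
      · let c : (AA o × AA o) × I → L := fun q => E q.2 (q.1.1.1 q.2) (q.1.2.1 q.2)
        have hc : ∀ q ∈ T ×ˢ T.biUnion SS, IsCompactElement (c q) := fun q _ => hEc _ _ _
        have h4 : E k (x.1 k) (y.1 k) ≤ (T ×ˢ T.biUnion SS).sup c := by
          refine (le_dd x y k).trans (hxy.trans (Finset.sup_le fun p hp => ?_))
          rw [dd_fin hself p.1 p.2 (T.biUnion SS) (hS p hp)]
          refine Finset.sup_le fun i hi => ?_
          exact Finset.le_sup (f := c) (Finset.mk_mem_product hp hi)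
        have h5 : φ k (E k (x.1 k) (y.1 k)) ≤ φ k ((T ×ˢ T.biUnion SS).sup c) :=
          H.mono k (hEc k _ _) (CompleteLattice.isCompactElement_finsetSup _ hc) h4
        rw [hEφ] at h5
        refine (h5.trans (H.sup_le k (T ×ˢ T.biUnion SS) c _ hc ?_) :
          (D k (x.1 k) (y.1 k)).1 ≤ _)
        intro q hq
        have h6 : D k (g q.2 (q.1.1.1 q.2)) (g q.2 (q.1.2.1 q.2)) ≤
            ((T ×ˢ T.biUnion SS).image fun q =>
              (g q.2 (q.1.1.1 q.2), g q.2 (q.1.2.1 q.2))).sup fun p => D k p.1 p.2 :=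
          Finset.le_sup (f := fun p : Z k × Z k => D k p.1 p.2)
            (Finset.mem_image_of_mem (fun q : (AA o × AA o) × I =>
              (g q.2 (q.1.1.1 q.2), g q.2 (q.1.2.1 q.2))) hq)
        exact (hEg _ _ _).symm.le.trans h6
    obtain ⟨S, hS⟩ := exists_supp x y
    have hw : ∀ R : Finset I, {i | (if i ∈ R then y.1 i else x.1 i) ≠ o i}.Finite := by
      intro R
      refine (x.2.union y.2).subset fun i hi => ?_
      have hi' : (if i ∈ R then y.1 i else x.1 i) ≠ o i := hi
      by_cases hiR : i ∈ R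
      · rw [if_pos hiR] at hi'
        exact Or.inr hi'
      · rw [if_neg hiR] at hi'
        exact Or.inl hi'
    have main : ∀ R : Finset I, r x ⟨fun i => if i ∈ R then y.1 i else x.1 i, hw R⟩ := by
      intro R
      induction R using Finset.induction_on with
      | empty =>
        refine h1 _ _ ?_
        refine le_bot_iff.1 (iSup_le fun i => ?_)
        show E i (x.1 i) (if i ∈ (∅ : Finset I) then y.1 i else x.1 i) ≤ ⊥
        rw [if_neg (Finset.notMem_empty i), hself]
      | insert k R hk ih =>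
        refine h2 _ _ _ ih ?_
        have h4 := h3 (fun z => up ⟨fun i => if i ∈ R then y.1 i else x.1 i, hw R⟩ k (z.1 k)) (by
          intro p q
          rw [dd_up hself]
          exact le_dd p q k) _ _ (key k)
        simp only [up_same] at h4
        have e1 : up ⟨fun i => if i ∈ R then y.1 i else x.1 i, hw R⟩ k (x.1 k) =
            (⟨fun i => if i ∈ R then y.1 i else x.1 i, hw R⟩ : AA o) := by
          apply Subtype.ext
          funext i
          by_cases hik : i = k
          · subst hik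
            rw [up_same]
            show x.1 i = if i ∈ R then y.1 i else x.1 i
            rw [if_neg hk]
          · rw [up_ne _ _ _ _ hik]
        have e2 : up ⟨fun i => if i ∈ R then y.1 i else x.1 i, hw R⟩ k (y.1 k) =
            (⟨fun i => if i ∈ insert k R then y.1 i else x.1 i, hw (insert k R)⟩ : AA o) := by
          apply Subtype.ext
          funext i
          by_cases hik : i = k
          · subst hik
            rw [up_same]
            show y.1 i = if i ∈ insert i R then y.1 i else x.1 i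
            rw [if_pos (Finset.mem_insert_self _ _)]
          · rw [up_ne _ _ _ _ hik]
            show (if i ∈ R then y.1 i else x.1 i) = if i ∈ insert k R then y.1 i else x.1 i
            by_cases hiR : i ∈ R
            · rw [if_pos hiR, if_pos (Finset.mem_insert_of_mem hiR)]
            · rw [if_neg hiR, if_neg]
              intro h5
              rcases Finset.mem_insert.1 h5 with h5 | h5
              · exact hik h5
              · exact hiR h5
        rw [e1, e2] at h4
        exact h4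
    have h4 := main S
    have e : (⟨fun i => if i ∈ S then y.1 i else x.1 i, hw S⟩ : AA o) = y := by
      apply Subtype.ext
      funext i
      show (if i ∈ S then y.1 i else x.1 i) = y.1 i
      by_cases hi : i ∈ S
      · rw [if_pos hi]
      · rw [if_neg hi, (hS i hi).1, (hS i hi).2]
    rwa [e] at h4

end MP81H
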