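import Pool.Agent.Lib.MP_81b71e_H.Spec

/-! The distance between two new points. -/

set_option autoImplicit false

namespace MP81H

universe u

private theorem sgm {V : Type u} [Lab V] {x y : V} (h : x ≤ y) : sg x ≤ sg y := by
  have h1 : x ⊔ y = y := sup_eq_right.2 h
  have h2 : sg x ⊔ sg y = sg y := by rw [← sg_sup, h1]
  exact sup_eq_right.1 h2

theorem tLst (h1 : S_Typ.{u}) : S_Lst.{u} := by
  intro V X _ d hd f h hf hh
  obtain ⟨g1, g2⟩ := h1 V X d hd h hh
  obtain ⟨c, e, g, k, hk, hkg, hgk, hf⟩ := hf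
  have fc : f c = g := by
    have h2 := (hf c).1
    rw [hd.self, bot_sup_eq] at h2
    rcases (hf c).2.2 with h3 | h3
    · rw [h3, hd.self, bot_sup_eq]
    · exact le_antisymm h2 (hgk.trans h3.ge)
  have fe : f e = k := by
    have h2 := (hf e).2.1
    rw [hd.self, bot_sup_eq] at h2
    rcases (hf e).2.2 with h3 | h3
    · apply le_antisymm h2
      rw [h3, hd.symm c e]
      exact hkg
    · rw [h3, hd.self, bot_sup_eq]
  have key : ∀ v, sg k ⊔ h e ≤ sg (f v) ⊔ h v ∨ sg g ⊔ h c ≤ sg (f v) ⊔ h v := by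
    intro v
    rcases (hf v).2.2 with hv | hv
    · right
      rw [hv, sg_sup, ← hd.symm v c]
      refine sup_le (le_sup_right.trans le_sup_left) ?_
      exact (g1 c v).trans (sup_le (le_sup_left.trans le_sup_left) le_sup_right)
    · left
      rw [hv, sg_sup, ← hd.symm v e]
      refine sup_le (le_sup_right.trans le_sup_left) ?_
      exact (g1 e v).trans (sup_le (le_sup_left.trans le_sup_left) le_sup_right)
  have hcl := Lab.cl (d c e) (sg (h c)) (sg (h e)) g k
    (by
      have h2 := sgm (g1 c e)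
      rwa [sg_sup, sup_comm] at h2)
    (by
      have h2 := sgm (g1 e c)
      rwa [sg_sup, ← hd.symm e c, sup_comm] at h2)
    (by
      rw [sg_sg]
      exact g2 c e)
    hk hkg hgk
  rcases hcl with hcl | hcl
  · have h2 : sg g ⊔ h c ≤ sg k ⊔ h e := by
      have h3 := sgm hcl
      rw [sg_sup, sg_sup, sg_sg, sg_sg, sup_comm, sup_comm (h e)] at h3
      exact h3
    refine ⟨c, fun v => ?_⟩
    rw [fc]
    rcases key v with h3 | h3
    · exact h2.trans h3
    · exact h3
  · have h2 : sg k ⊔ h e ≤ sg g ⊔ h c := by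
      have h3 := sgm hcl
      rw [sg_sup, sg_sup, sg_sg, sg_sg, sup_comm, sup_comm (h c)] at h3
      exact h3
    refine ⟨e, fun v => ?_⟩
    rw [fe]
    rcases key v with h3 | h3
    · exact h3
    · exact h2.trans h3

end MP81H
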