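import Pool.Agent.Lib.MP_81b71e_H.Spec

/-!
# Module Ngd: the gadget for a nonsymmetric label
-/

set_option autoImplicit false
set_option linter.unusedSimpArgs false

namespace MP81H

universe u

section basic

variable {V : Type u} [Lab V]

private theorem ng_mono {x y : V} (h : x ≤ y) : sg x ≤ sg y := by
  have h1 : x ⊔ y = y := sup_eq_right.2 h
  rw [← h1, sg_sup]
  exact le_sup_left

private theorem ng_le {x y : V} (h : x ≤ sg y) : sg x ≤ y := by
  have h1 := ng_mono h
  rwa [sg_sg] at h1

variable {X : Type u} {d : X → X → V}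

/-- comparison of the two links -/
private theorem ng_cmp (hd : IsSp d) {a b c e : X} (hce : d c e = d a b) (y u : X) :
    d u c ⊔ d a y ≤ d u e ⊔ (sg (d a b) ⊔ d b y) ∨
      d u e ⊔ (sg (d a b) ⊔ d b y) ≤ d u c ⊔ d a y := by
  apply Lab.cl (d c e)
  · rw [← hd.symm]
    exact hd.tri _ _ _
  · exact hd.tri _ _ _
  · rw [← hd.symm]
    exact hd.tri _ _ _
  · rw [hce]
    exact le_sup_left
  · rw [hce, ← hd.symm]
    exact sup_le le_sup_left (hd.tri _ _ _)
  · rw [hce]
    exact (hd.tri a b y).trans (sup_le_sup le_rfl le_sup_right)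

private theorem ng_two' (hd : IsSp d) {a b c e : X} (hce : d c e = d a b) (x y : X) :
    d y e ⊔ sg (d a b) ⊔ d b x ≤ d y c ⊔ d a x ∨ d y c ⊔ d a x ≤ d y e ⊔ sg (d a b) ⊔ d b x := by
  rw [sup_assoc]
  exact (ng_cmp hd hce x y).symm

private theorem ng_two (hd : IsSp d) {a b c e : X} (hce : d c e = d a b) (x y : X) :
    d x b ⊔ d a b ⊔ d e y ≤ d x a ⊔ d c y ∨ d x a ⊔ d c y ≤ d x b ⊔ d a b ⊔ d e y := by
  have e1 : d x b ⊔ d a b ⊔ d e y = sg (d y e ⊔ sg (d a b) ⊔ d b x) := by
    rw [sg_sup, sg_sup, ← hd.symm b x, ← hd.symm y e, sg_sg]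
    ac_rfl
  have e2 : d x a ⊔ d c y = sg (d y c ⊔ d a x) := by
    rw [sg_sup, ← hd.symm, ← hd.symm a x, sup_comm]
  rw [e1, e2]
  rcases ng_two' hd hce x y with h | h
  · exact Or.inl (ng_mono h)
  · exact Or.inr (ng_mono h)

/-- the type of a point of a copy -/
private theorem ng_ty (hd : IsSp d) {a b c e : X} (hce : d c e = d a b) (y : X) (f : X → V)
    (h1 : ∀ u, f u ≤ d u c ⊔ d a y) (h2 : ∀ u, f u ≤ d u e ⊔ sg (d a b) ⊔ d b y)
    (h3 : ∀ u, f u = d u c ⊔ d a y ∨ f u = d u e ⊔ sg (d a b) ⊔ d b y) : Ty d f := by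
  refine ⟨c, e, d a y, sg (d a b) ⊔ d b y, ?_, ?_, ?_, fun u => ⟨h1 u, ?_, ?_⟩⟩
  · rw [hce]
    exact le_sup_left
  · rw [hce, ← hd.symm]
    exact sup_le le_sup_left (hd.tri _ _ _)
  · rw [hce]
    exact (hd.tri a b y).trans (sup_le_sup le_rfl le_sup_right)
  · rw [← sup_assoc]
    exact h2 u
  · rw [← sup_assoc]
    exact h3 u

end basic

/-- the links -/
private inductive NL {V X : Type u} [Lab V] (a b c e : X) (t : V) :
    Fin 3 → Fin 3 → X × V × X → Prop
  | dg (i : Fin 3) (x : X) : NL a b c e t i i (x, ⊥, x)
  | l01 : NL a b c e t 0 1 (b, ⊥, a)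
  | l10 : NL a b c e t 1 0 (a, ⊥, b)
  | l02 : NL a b c e t 0 2 (a, ⊥, c)
  | l02' : NL a b c e t 0 2 (b, t, e)
  | l20 : NL a b c e t 2 0 (c, ⊥, a)
  | l20' : NL a b c e t 2 0 (e, sg t, b)
  | l12 : NL a b c e t 1 2 (b, ⊥, e)
  | l12' : NL a b c e t 1 2 (a, sg t, c)
  | l21 : NL a b c e t 2 1 (e, ⊥, b)
  | l21' : NL a b c e t 2 1 (c, t, a)

theorem tNgd (hL : S_Lnk.{u}) : S_Ngd.{u} := by
  intro V X _ d hd a b c e hce
  have sb : sg (⊥ : V) = ⊥ := le_antisymm (ng_le bot_le) bot_le
  have hba : d b a = sg (d a b) := hd.symm a b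
  have hec : d e c = sg (d a b) := by rw [hd.symm c e, hce]
  have hecb : d e c = d b a := by rw [hec, hba]
  set t := d a b with htdef
  obtain ⟨D, hD, hDd, hDl⟩ := hL V X d hd (Fin 3) (fun i j => {l | NL a b c e t i j l})
    (by
      rintro i ⟨x, w, y⟩
      constructor
      · intro h
        cases h
        exact ⟨rfl, rfl⟩
      · rintro ⟨h1, h2⟩
        simp only at h1 h2
        subst h1 h2
        exact NL.dg i x)
    (by
      rintro i j l h
      cases h with
      | dg x =>
        simp only [sb]
        exact NL.dg _ _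
      | l01 => simp only [sb]; exact NL.l10
      | l10 => simp only [sb]; exact NL.l01
      | l02 => simp only [sb]; exact NL.l20
      | l02' => exact NL.l20'
      | l20 => simp only [sb]; exact NL.l02
      | l20' => simp only [sg_sg]; exact NL.l02'
      | l12 => simp only [sb]; exact NL.l21
      | l12' => simp only [sg_sg]; exact NL.l21'
      | l21 => simp only [sb]; exact NL.l12
      | l21' => exact NL.l12')
    (by
      intro i j k hij hjk l hl m hm
      cases hl with
      | dg x => exact absurd rfl hij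
      | l01 =>
        cases hm with
        | dg x => exact absurd rfl hjk
        | l10 => exact ⟨_, NL.dg 0 b, by simp [hd.self]⟩
        | l12 => exact ⟨_, NL.l02', by simp [hd.self, htdef]⟩
        | l12' => exact ⟨_, NL.l02, by simp [hd.self, hba]⟩
      | l10 =>
        cases hm with
        | dg x => exact absurd rfl hjk
        | l01 => exact ⟨_, NL.dg 1 a, by simp [hd.self]⟩
        | l02 => exact ⟨_, NL.l12', by simp [hd.self, hba]⟩
        | l02' => exact ⟨_, NL.l12, by simp [hd.self, ← htdef]⟩
      | l02 =>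
        cases hm with
        | dg x => exact absurd rfl hjk
        | l20 => exact ⟨_, NL.dg 0 a, by simp [hd.self]⟩
        | l20' => exact ⟨_, NL.dg 0 a, by simp [hd.self, hce, ← htdef]⟩
        | l21 => exact ⟨_, NL.l01, by simp [hd.self, hce, ← htdef]⟩
        | l21' => exact ⟨_, NL.l01, by simp [hd.self, hce, ← htdef]⟩
      | l02' =>
        cases hm with
        | dg x => exact absurd rfl hjk
        | l20 => exact ⟨_, NL.dg 0 b, by simp [hd.self, hec, hba]⟩
        | l20' => exact ⟨_, NL.dg 0 b, by simp [hd.self]⟩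
        | l21 => exact ⟨_, NL.l01, by simp [hd.self, ← htdef]⟩
        | l21' => exact ⟨_, NL.l01, by simp [hd.self, ← htdef]⟩
      | l20 =>
        cases hm with
        | dg x => exact absurd rfl hjk
        | l01 => exact ⟨_, NL.l21', by simp [hd.self, ← htdef]⟩
        | l02 => exact ⟨_, NL.dg 2 c, by simp [hd.self]⟩
        | l02' => exact ⟨_, NL.dg 2 c, by simp [hd.self, hce, ← htdef]⟩
      | l20' =>
        cases hm with
        | dg x => exact absurd rfl hjk
        | l01 => exact ⟨_, NL.l21, by simp [hd.self, hba]⟩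
        | l02 => exact ⟨_, NL.dg 2 e, by simp [hd.self, hec, hba]⟩
        | l02' => exact ⟨_, NL.dg 2 e, by simp [hd.self]⟩
      | l12 =>
        cases hm with
        | dg x => exact absurd rfl hjk
        | l20 => exact ⟨_, NL.l10, by simp [hd.self, hec, hba]⟩
        | l20' => exact ⟨_, NL.l10, by simp [hd.self, hec, hba]⟩
        | l21 => exact ⟨_, NL.dg 1 b, by simp [hd.self]⟩
        | l21' => exact ⟨_, NL.dg 1 b, by simp [hd.self, hec, hba]⟩
      | l12' =>
        cases hm with
        | dg x => exact absurd rfl hjk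
        | l20 => exact ⟨_, NL.l10, by simp [hd.self, hec, hba]⟩
        | l20' => exact ⟨_, NL.l10, by simp [hd.self, hec, hba]⟩
        | l21 => exact ⟨_, NL.dg 1 a, by simp [hd.self, hce, ← htdef]⟩
        | l21' => exact ⟨_, NL.dg 1 a, by simp [hd.self]⟩
      | l21 =>
        cases hm with
        | dg x => exact absurd rfl hjk
        | l10 => exact ⟨_, NL.l20', by simp [hd.self, hba]⟩
        | l12 => exact ⟨_, NL.dg 2 e, by simp [hd.self]⟩
        | l12' => exact ⟨_, NL.dg 2 e, by simp [hd.self, hec, hba]⟩
      | l21' =>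
        cases hm with
        | dg x => exact absurd rfl hjk
        | l10 => exact ⟨_, NL.l20, by simp [hd.self, ← htdef]⟩
        | l12 => exact ⟨_, NL.dg 2 c, by simp [hd.self, hce, ← htdef]⟩
        | l12' => exact ⟨_, NL.dg 2 c, by simp [hd.self]⟩)
    (by
      intro i j hij x y
      fin_cases i <;> fin_cases j
      · exact absurd rfl hij
      · refine ⟨_, NL.l01, ?_⟩
        intro m hm
        cases hm
        exact le_rfl
      · rcases ng_two hd hce x y with q | q
        · refine ⟨_, NL.l02', ?_⟩
          intro m hm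
          cases hm
          · simpa using q
          · exact le_rfl
        · refine ⟨_, NL.l02, ?_⟩
          intro m hm
          cases hm
          · exact le_rfl
          · simpa using q
      · refine ⟨_, NL.l10, ?_⟩
        intro m hm
        cases hm
        exact le_rfl
      · exact absurd rfl hij
      · rcases ng_two hd hecb x y with q | q
        · refine ⟨_, NL.l12', ?_⟩
          intro m hm
          cases hm
          · simpa [← hba] using q
          · exact le_rfl
        · refine ⟨_, NL.l12, ?_⟩
          intro m hm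
          cases hm
          · exact le_rfl
          · simpa [← hba] using q
      · rcases ng_two' hd hce y x with q | q
        · refine ⟨_, NL.l20', ?_⟩
          intro m hm
          cases hm
          · simpa using q
          · exact le_rfl
        · refine ⟨_, NL.l20, ?_⟩
          intro m hm
          cases hm
          · exact le_rfl
          · simpa using q
      · rcases ng_two' hd hecb y x with q | q
        · refine ⟨_, NL.l21', ?_⟩
          intro m hm
          cases hm
          · simpa [← hd.symm, ← htdef] using q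
          · exact le_rfl
        · refine ⟨_, NL.l21, ?_⟩
          intro m hm
          cases hm
          · exact le_rfl
          · simpa [← hd.symm, ← htdef] using q
      · exact absurd rfl hij)
  -- the distances
  let r : Fin 3 → Fin 3 := ![0, 1, 1]
  refine ⟨fun p q => D (p.1, r p.2) (q.1, r q.2), fun p u => D (u, 2) (p.1, r p.2), ?_, ?_, ?_, ?_,
    ?_⟩
  · have h0 : ∀ y, Ty d (fun u => D (u, 2) (y, 0)) := by
      intro y
      apply ng_ty hd hce y
      · intro u
        have h1 := (hDl 2 0 u y).1 _ NL.l20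
        simpa using h1
      · intro u
        exact (hDl 2 0 u y).1 _ NL.l20'
      · intro u
        obtain ⟨l, hl, h1⟩ := (hDl 2 0 u y).2
        cases hl
        · left
          simpa using h1
        · right
          exact h1
    have h1 : ∀ y, Ty d (fun u => D (u, 2) (y, 1)) := by
      intro y
      apply ng_ty hd hecb y
      · intro u
        have h1 := (hDl 2 1 u y).1 _ NL.l21
        simpa using h1
      · intro u
        have h1 := (hDl 2 1 u y).1 _ NL.l21'
        simpa [← hd.symm, ← htdef] using h1
      · intro u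
        obtain ⟨l, hl, h1⟩ := (hDl 2 1 u y).2
        cases hl
        · left
          simpa using h1
        · right
          simpa [← hd.symm, ← htdef] using h1
    refine ⟨⟨fun x => hD.self _, fun x y => hD.symm _ _, fun x y z => hD.tri _ _ _⟩, ?_, ?_, ?_⟩
    · rintro ⟨y, i⟩
      fin_cases i
      · exact h0 y
      · exact h1 y
      · exact h1 y
    · intro y z u
      exact hD.tri _ _ _
    · intro y z u
      have h2 := hD.tri (y.1, r y.2) (u, 2) (z.1, r z.2)
      rw [hD.symm (u, 2) (y.1, r y.2)] at h2
      exact h2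
  · intro i x y
    exact hDd _ _ _
  · have h1 := (hDl 2 0 c a).1 _ NL.l20
    have h2 : D (c, 2) (a, 0) = ⊥ := by simpa [hd.self] using h1
    exact h2
  · have h1 := (hDl 0 1 b a).1 _ NL.l01
    have h2 : D (b, 0) (a, 1) = ⊥ := by simpa [hd.self] using h1
    exact h2
  · have h1 := (hDl 2 1 e b).1 _ NL.l21
    have h2 : D (e, 2) (b, 1) = ⊥ := by simpa [hd.self] using h1
    exact h2

end MP81H
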