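import Pool.Agent.Lib.MP_81b71e_H.Spec

/-!
# MP_81b71e_al, theorem K, module Rlz: from a pseudo space to `Realizable`

Adapted from `Pool/Agent/Lib/MP_81b71e_al/Cd/Real.lean` (helper82).
-/

set_option autoImplicit false

namespace MP81H

open Pool.Agent.Lib.MP_81b71e_al

universe u

namespace RlzAux

variable {L : Type u} [CompleteLattice L]

/-- All operations preserving all the relations `d a b ≤ z`. -/
def ops {A : Type u} (d : A → A → L) : Ops A := fun n => {f | ∀ (z : L) (a b : Fin n → A),
  (∀ i, d (a i) (b i) ≤ z) → d (f a) (f b) ≤ z}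

/-- The quasiorder `d a b ≤ z`. -/
def toQord {A : Type u} {d : A → A → L} (hself : ∀ x, d x x = ⊥)
    (htri : ∀ x y z, d x z ≤ d x y ⊔ d y z) (z : L) : Qord (ops d) :=
  ⟨fun a b => d a b ≤ z, fun a => (hself a).trans_le bot_le,
    fun a b c h1 h2 => (htri a b c).trans (sup_le h1 h2), fun _ _ hf a b hab => hf z a b hab⟩

theorem apply {A : Type u} {d : A → A → L} (σ : Qord (ops d)) {f : A → A}
    (hf : ∀ p q, d (f p) (f q) ≤ d p q) {a b : A} (hab : σ.1 a b) : σ.1 (f a) (f b) := by
  have h1 : (fun x : Fin 1 → A => f (x 0)) ∈ ops d 1 := by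
    intro z a b hab
    exact (hf _ _).trans (hab 0)
  exact σ.2.2.2 1 _ h1 (fun _ => a) (fun _ => b) (fun _ => hab)

end RlzAux

open RlzAux in
theorem tRlz : S_Rlz := by
  classical
  intro L _ _ θ A d hθ hA h
  have hbot : ∀ m n, d m n = ⊥ → d n m = ⊥ := by
    intro m n h1
    rw [h.symm m n, h1, map_bot]
  let S : Setoid A := ⟨fun x y => d x y = ⊥, ⟨h.self, fun {x y} => hbot x y, fun {x y z} h1 h2 => by
    have h3 := h.tri x y z
    rwa [h1, h2, sup_bot_eq, le_bot_iff] at h3⟩⟩
  let r : A → A := fun x => (Quotient.mk S x).out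
  have hr : ∀ x, d (r x) x = ⊥ := fun x => Quotient.mk_out (s := S) x
  have hreq : ∀ x y, d x y = ⊥ → r x = r y := by
    intro x y hxy
    have h1 : Quotient.mk S x = Quotient.mk S y := Quotient.sound hxy
    show (Quotient.mk S x).out = (Quotient.mk S y).out
    rw [h1]
  have hrl : ∀ n m, d (r n) m = d n m := by
    intro n m
    apply le_antisymm
    · refine (h.tri (r n) n m).trans ?_
      rw [hr, bot_sup_eq]
    · refine (h.tri n (r n) m).trans ?_
      rw [hbot _ _ (hr n), bot_sup_eq]
  have hrr : ∀ n m, d m (r n) = d m n := by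
    intro n m
    rw [h.symm (r n) m, hrl, ← h.symm]
  have hrep : ∀ n, r (r n) = r n := fun n => hreq _ _ (hr n)
  let R : A → {x : A // r x = x} := fun x => ⟨r x, hrep x⟩
  let d' : {x : A // r x = x} → {x : A // r x = x} → L := fun x y => d x.1 y.1
  have hR : ∀ x : {x : A // r x = x}, R x.1 = x := fun x => Subtype.ext x.2
  have hReq : ∀ x y, d x y = ⊥ → R x = R y := fun x y hxy => Subtype.ext (hreq x y hxy)
  have hd' : ∀ x y, d' (R x) (R y) = d x y := by
    intro x y
    show d (r x) (r y) = d x y
    rw [hrl, hrr]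
  have hself : ∀ x, d' x x = ⊥ := fun x => h.self x.1
  have htri : ∀ x y z, d' x z ≤ d' x y ⊔ d' y z := fun x y z => h.tri x.1 y.1 z.1
  have hne : Nonempty {x : A // r x = x} := by
    obtain ⟨a⟩ := hA
    exact ⟨R a⟩
  -- every preserved quasiorder is of the form `d a b ≤ z`
  have hsurj : ∀ σ : Qord (ops d'), ∃ z, toQord hself htri z = σ := by
    intro σ
    refine ⟨sSup {c | ∃ a b, σ.1 a b ∧ d' a b = c}, ?_⟩
    apply le_antisymm
    · intro a b hab
      have hab' : d' a b ≤ sSup {c | ∃ a b, σ.1 a b ∧ d' a b = c} := hab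
      have hcomp : IsCompactElement (d' a b) := h.comp a.1 b.1
      rw [CompleteLattice.isCompactElement_iff_exists_le_sSup_of_le_sSup] at hcomp
      obtain ⟨T, hT, hle⟩ := hcomp _ hab'
      have hch : ∀ c : {c // c ∈ T}, ∃ p : A × A, σ.1 (R p.1) (R p.2) ∧ d p.1 p.2 = c.1 := by
        rintro ⟨c, hc⟩
        obtain ⟨x, y, hxy, hc2⟩ := hT hc
        refine ⟨(x.1, y.1), ?_, hc2⟩
        show σ.1 (R x.1) (R y.1)
        rw [hR, hR]
        exact hxy
      choose P hP1 hP2 using hch
      have key := h.gen (fun p q => σ.1 (R p) (R q))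
        (fun x y hxy => by rw [hReq x y hxy]; exact σ.2.1 _)
        (fun x y z h1 h2 => σ.2.2.1 _ _ _ h1 h2)
        (fun f hf x y hxy => by
          have h1 : ∀ p q : {x : A // r x = x}, d' (R (f p.1)) (R (f q.1)) ≤ d' p q := by
            intro p q
            rw [hd']
            exact hf p.1 q.1
          have h2 := RlzAux.apply σ (f := fun p : {x : A // r x = x} => R (f p.1)) h1 hxy
          have h3 : ∀ x : A, R (f (R x).1) = R (f x) := by
            intro x
            apply hReq
            apply le_bot_iff.1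
            refine (hf _ _).trans ?_
            exact (hr x).le
          rw [h3, h3] at h2
          exact h2)
        (Finset.univ.image P) a.1 b.1
        (fun p hp => by
          obtain ⟨c, _, rfl⟩ := Finset.mem_image.1 hp
          exact hP1 c)
        (by
          refine hle.trans ?_
          refine Finset.sup_le fun c hc => ?_
          have h4 : P ⟨c, hc⟩ ∈ Finset.univ.image P := Finset.mem_image_of_mem _ (Finset.mem_univ _)
          have h5 := Finset.le_sup (f := fun p : A × A => d p.1 p.2) h4
          rw [hP2] at h5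
          exact h5)
      have key' : σ.1 (R a.1) (R b.1) := key
      rw [hR, hR] at key'
      exact key'
    · intro a b hab
      exact le_sSup ⟨a, b, hab, rfl⟩
  have hle : ∀ {z w : L}, toQord hself htri z ≤ toQord hself htri w ↔ z ≤ w := by
    intro z w
    constructor
    · intro hzw
      rw [← sSup_compact_le_eq z]
      apply sSup_le
      rintro c ⟨hc, hcz⟩
      obtain ⟨a, b, rfl⟩ := h.all c hc
      have h1 := hzw (R a) (R b) (show d' (R a) (R b) ≤ z by rw [hd']; exact hcz)
      have h2 : d' (R a) (R b) ≤ w := h1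
      rwa [hd'] at h2
    · intro hzw a b hab
      exact le_trans (show d' a b ≤ z from hab) hzw
  let φ : L ≃o Qord (ops d') :=
    { toEquiv := Equiv.ofBijective (toQord hself htri) ⟨by
        intro z w hzw
        exact le_antisymm (hle.1 hzw.le) (hle.1 hzw.ge), hsurj⟩
      map_rel_iff' := hle }
  refine ⟨{x : A // r x = x}, hne, ops d', φ, ?_⟩
  intro x
  show θ x = x ↔ ∀ a b, d' a b ≤ x → d' b a ≤ x
  have hsymm : ∀ a b, d' b a = θ (d' a b) := fun a b => h.symm a.1 b.1
  constructor
  · intro hx a b hab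
    rw [hsymm a b]
    exact (θ.monotone hab).trans_eq hx
  · intro hx
    have h1 : θ x ≤ x := by
      apply hle.1
      intro a b hab
      have hab' : d' a b ≤ θ x := hab
      apply hx b a
      rw [hsymm a b]
      have h2 := θ.monotone hab'
      rwa [hθ] at h2
    have h2 := θ.monotone h1
    rw [hθ] at h2
    exact le_antisymm h1 h2

end MP81H
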