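import Pool.Agent.Lib.MP_81b71e_H.Spec

/-!
# The gadget for a symmetric label
-/

set_option autoImplicit false

namespace MP81H

universe u v

private theorem sgd_mono {V : Type u} [Lab V] {x y : V} (h : x ≤ y) : sg x ≤ sg y := by
  rw [← sup_eq_right] at h ⊢
  rw [← sg_sup, h]

private theorem sgd_bot {V : Type u} [Lab V] : sg (⊥ : V) = ⊥ := by
  refine le_bot_iff.1 ?_
  have h := sgd_mono (bot_le : (⊥ : V) ≤ sg ⊥)
  rwa [sg_sg] at h

/-- the end points of the links -/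
private def sgd_x {X : Type u} (a b c e : X) : Fin 4 → Fin 4 → X :=
  ![![a, b, a, a], ![a, a, b, a], ![b, a, a, b], ![c, c, e, a]]

/-- the labels of the links -/
private def sgd_w {V : Type u} [Lab V] (t p : V) : Fin 4 → Fin 4 → V :=
  ![![⊥, ⊥, p, ⊥], ![⊥, ⊥, ⊥, t], ![sg p, ⊥, ⊥, ⊥], ![⊥, t, ⊥, ⊥]]

private theorem sgd_w_symm {V : Type u} [Lab V] {t p : V} (ht : sg t = t) (i j : Fin 4) :
    sgd_w t p j i = sg (sgd_w t p i j) := by
  fin_cases i <;> fin_cases j <;> simp [sgd_w, sgd_bot, ht, sg_sg]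

private theorem sgd_cl {V X : Type u} [Lab V] {d : X → X → V} (h : IsSp d) {a b c e : X}
    (ht : sg (d a b) = d a b) (hp : d c e ≤ d a b) (i j k : Fin 4) (hij : i ≠ j) (hjk : j ≠ k)
    (hik : i ≠ k) :
    d (sgd_x a b c e i j) (sgd_x a b c e i k) ⊔ sgd_w (d a b) (d c e) i k ⊔
      d (sgd_x a b c e k i) (sgd_x a b c e k j) ≤ sgd_w (d a b) (d c e) i j ⊔
        d (sgd_x a b c e j i) (sgd_x a b c e j k) ⊔ sgd_w (d a b) (d c e) j k := by
  have h1 : d b a = d a b := by rw [h.symm a b, ht]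
  have h2 : d e c = sg (d c e) := h.symm c e
  have h3 : sg (d c e) ≤ d a b := by
    have h4 := sgd_mono hp
    rwa [ht] at h4
  revert hij hjk hik
  fin_cases i <;> fin_cases j <;> fin_cases k <;>
    simp [sgd_x, sgd_w, h.self, h1, h2, hp, h3]

private theorem ty_one {V : Type u} [Lab V] {X : Type u} {d : X → X → V} (hd : IsSp d) (w : X)
    (s : V) (f : X → V) (hf : ∀ u, f u = d u w ⊔ s) : Ty d f := by
  have h0 : sg (d w w) = ⊥ := by rw [← hd.symm, hd.self]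
  refine ⟨w, w, s, s, ?_, le_sup_right, le_sup_right, fun u => ⟨(hf u).le, (hf u).le, Or.inl (hf u)⟩⟩
  rw [h0]
  exact bot_le

theorem tSgd (hLnk : S_Lnk.{u}) : S_Sgd.{u} := by
  intro V X _ d h a b c e ht hp
  let xx := sgd_x a b c e
  let ww := sgd_w (d a b) (d c e)
  let Λ : Fin 4 → Fin 4 → Set (X × V × X) := fun i j => if i = j then {l | l.1 = l.2.2 ∧ l.2.1 = ⊥}
    else {(xx i j, ww i j, xx j i)}
  have hΛ0 : ∀ i (l : X × V × X), l ∈ Λ i i ↔ l.1 = l.2.2 ∧ l.2.1 = ⊥ := by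
    intro i l
    simp only [Λ, if_true]
    exact Iff.rfl
  have hΛ1 : ∀ i j, i ≠ j → ∀ l : X × V × X, l ∈ Λ i j ↔ l = (xx i j, ww i j, xx j i) := by
    intro i j hij l
    simp only [Λ, if_neg hij]
    exact Iff.rfl
  obtain ⟨D, hD, hDi, hDl⟩ := hLnk V X d h (Fin 4) Λ hΛ0 (by
      intro i j l hl
      by_cases hij : i = j
      · subst hij
        rw [hΛ0] at hl ⊢
        refine ⟨hl.1.symm, ?_⟩
        change sg l.2.1 = ⊥
        rw [hl.2, sgd_bot]
      · rw [hΛ1 i j hij] at hl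
        rw [hΛ1 j i (Ne.symm hij), hl]
        change (xx j i, sg (ww i j), xx i j) = _
        rw [← sgd_w_symm ht i j]) (by
      intro i j k hij hjk l hl m hm
      rw [hΛ1 i j hij] at hl
      rw [hΛ1 j k hjk] at hm
      subst hl hm
      by_cases hik : i = k
      · subst hik
        refine ⟨(xx i j, ⊥, xx i j), (hΛ0 i _).2 ⟨rfl, rfl⟩, ?_⟩
        change d (xx i j) (xx i j) ⊔ ⊥ ⊔ d (xx i j) (xx i j) ≤ _
        rw [h.self, sup_bot_eq, sup_bot_eq]
        exact bot_le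
      · exact ⟨_, (hΛ1 i k hik _).2 rfl, sgd_cl h ht hp i j k hij hjk hik⟩) (by
      intro i j hij x y
      refine ⟨_, (hΛ1 i j hij _).2 rfl, fun m hm => ?_⟩
      rw [hΛ1 i j hij] at hm
      rw [hm])
  have hDv : ∀ i j, i ≠ j → ∀ x y, D (x, i) (y, j) = d x (xx i j) ⊔ ww i j ⊔ d (xx j i) y := by
    intro i j hij x y
    obtain ⟨l, hl, hl2⟩ := (hDl i j x y).2
    rw [hΛ1 i j hij] at hl
    rw [hl2, hl]
  refine ⟨fun p q => D (p.1, p.2.castSucc) (q.1, q.2.castSucc),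
    fun p x => D (x, 3) (p.1, p.2.castSucc), ⟨⟨fun x => hD.self _, fun x y => hD.symm _ _,
      fun x y z => hD.tri _ _ _⟩, fun y => ?_, fun y z x => hD.tri _ _ _, fun y z x => ?_⟩,
      fun i x y => hDi _ x y, ?_, ?_, ?_, ?_⟩
  · refine ty_one h (xx 3 y.2.castSucc) (ww 3 y.2.castSucc ⊔ d (xx y.2.castSucc 3) y.1) _
      (fun x => ?_)
    have hne : (3 : Fin 4) ≠ y.2.castSucc := (Fin.castSucc_lt_last y.2).ne'
    rw [← sup_assoc]
    exact hDv 3 y.2.castSucc hne x y.1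
  · change _ ≤ sg (D (x, 3) (y.1, y.2.castSucc)) ⊔ D (x, 3) (z.1, z.2.castSucc)
    rw [← hD.symm]
    exact hD.tri _ _ _
  · refine (hDv 3 0 (by decide) c a).trans ?_
    change d c c ⊔ ⊥ ⊔ d a a = ⊥
    rw [h.self, h.self, sup_bot_eq, sup_bot_eq]
  · refine (hDv 0 1 (by decide) b a).trans ?_
    change d b b ⊔ ⊥ ⊔ d a a = ⊥
    rw [h.self, h.self, sup_bot_eq, sup_bot_eq]
  · refine (hDv 1 2 (by decide) b a).trans ?_
    change d b b ⊔ ⊥ ⊔ d a a = ⊥
    rw [h.self, h.self, sup_bot_eq, sup_bot_eq]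
  · refine (hDv 3 2 (by decide) e b).trans ?_
    change d e e ⊔ ⊥ ⊔ d b b = ⊥
    rw [h.self, h.self, sup_bot_eq, sup_bot_eq]

end MP81H
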