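import Pool.Agent.Lib.MP_81b71e_H.Spec

/-! Transport of types. -/

set_option autoImplicit false

namespace MP81H

universe u

private theorem mono {V W : Type u} [Lab V] [Lab W] {F : V → W} (hF : IsHom F) {x y : V}
    (h : x ≤ y) : F x ≤ F y := by
  have h1 : x ⊔ y = y := sup_eq_right.2 h
  rw [← h1, hF.sup]
  exact le_sup_left

theorem tTrn : S_Trn.{u} := by
  classical
  intro V W X Y _ _ F hF d d' hd hd' γ hγ f hf
  obtain ⟨c, e, g, k, hk, hkg, hgk, hf⟩ := hf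
  have fc : f c = g := by
    have h2 := (hf c).1
    rw [hd.self, bot_sup_eq] at h2
    rcases (hf c).2.2 with h3 | h3
    · rw [h3, hd.self, bot_sup_eq]
    · exact le_antisymm h2 (hgk.trans h3.ge)
  have fe : f e = k := by
    have h2 := (hf e).2.1
    rw [hd.self, bot_sup_eq] at h2
    rcases (hf e).2.2 with h3 | h3
    · apply le_antisymm h2
      rw [h3, hd.symm c e]
      exact hkg
    · rw [h3, hd.self, bot_sup_eq]
  have k1 : sg (d' (γ c) (γ e)) ≤ F k := by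
    rw [hγ, ← hF.sg]
    exact mono hF hk
  have k2 : F k ≤ sg (d' (γ c) (γ e)) ⊔ F g := by
    rw [hγ, ← hF.sg, ← hF.sup]
    exact mono hF hkg
  have k3 : F g ≤ d' (γ c) (γ e) ⊔ F k := by
    rw [hγ, ← hF.sup]
    exact mono hF hgk
  have key : ∀ u', d' u' (γ c) ⊔ F g ≤ d' u' (γ e) ⊔ F k ∨
      d' u' (γ e) ⊔ F k ≤ d' u' (γ c) ⊔ F g := by
    intro u'
    apply Lab.cl (d' (γ c) (γ e)) _ _ _ _ _ _ _ k1 k2 k3
    · rw [← hd'.symm]
      exact hd'.tri _ _ _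
    · exact hd'.tri _ _ _
    · rw [← hd'.symm]
      exact hd'.tri _ _ _
  let f' : Y → W := fun u' => if d' u' (γ c) ⊔ F g ≤ d' u' (γ e) ⊔ F k then d' u' (γ c) ⊔ F g
    else d' u' (γ e) ⊔ F k
  have hf' : ∀ u', f' u' ≤ d' u' (γ c) ⊔ F g ∧ f' u' ≤ d' u' (γ e) ⊔ F k ∧
      (f' u' = d' u' (γ c) ⊔ F g ∨ f' u' = d' u' (γ e) ⊔ F k) := by
    intro u'
    by_cases h : d' u' (γ c) ⊔ F g ≤ d' u' (γ e) ⊔ F k
    · have e1 : f' u' = d' u' (γ c) ⊔ F g := if_pos h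
      rw [e1]
      exact ⟨le_rfl, h, Or.inl rfl⟩
    · have e1 : f' u' = d' u' (γ e) ⊔ F k := if_neg h
      rw [e1]
      exact ⟨(key u').resolve_left h, le_rfl, Or.inr rfl⟩
  refine ⟨f', ⟨γ c, γ e, F g, F k, k1, k2, k3, hf'⟩, fun u => ?_, fun u' => ?_⟩
  · obtain ⟨a1, a2, a3⟩ := hf' (γ u)
    obtain ⟨b1, b2, b3⟩ := hf u
    rw [hγ, ← hF.sup] at a1
    rw [hγ, ← hF.sup] at a2
    rw [hγ, ← hF.sup, hγ, ← hF.sup] at a3
    apply le_antisymm
    · rcases b3 with b3 | b3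
      · rw [b3]
        exact a1
      · rw [b3]
        exact a2
    · rcases a3 with a3 | a3
      · rw [a3]
        exact mono hF b1
      · rw [a3]
        exact mono hF b2
  · rcases (hf' u').2.2 with h | h
    · exact ⟨c, by rw [h, fc]⟩
    · exact ⟨e, by rw [h, fe]⟩

end MP81H
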