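import Pool.Agent.Lib.MP_81b71e_H.Typ
import Pool.Agent.Lib.MP_81b71e_H.Lst
import Pool.Agent.Lib.MP_81b71e_H.Trn
import Pool.Agent.Lib.MP_81b71e_H.Amg
import Pool.Agent.Lib.MP_81b71e_H.Lnk
import Pool.Agent.Lib.MP_81b71e_H.Jgd
import Pool.Agent.Lib.MP_81b71e_H.Sgd
import Pool.Agent.Lib.MP_81b71e_H.Ngd
import Pool.Agent.Lib.MP_81b71e_H.Lim
import Pool.Agent.Lib.MP_81b71e_H.Ext
import Pool.Agent.Lib.MP_81b71e_H.Twr
import Pool.Agent.Lib.MP_81b71e_H.Sat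
import Pool.Agent.Lib.MP_81b71e_H.Rlz
import Pool.Agent.Lib.MP_81b71e_H.Ker

/-!
# Theorem K*
-/

set_option autoImplicit false

namespace MP81H

open Pool.Agent.Lib.MP_81b71e_al

universe u

theorem m_Sat : S_Sat.{u} :=
  tSat tTyp tTrn (tTwr (tAmg tTyp (tLst tTyp))) tLim tExt tJgd (tSgd tLnk) (tNgd tLnk)

theorem m_Ker : S_Ker.{u} := tKer m_Sat tRlz

end MP81H
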