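import Pool.Agent.Lib.MP_81b71e_H.Spec

/-!
# Module Sat: the saturated spaces
-/

set_option autoImplicit false

namespace MP81H

universe u

section basic

variable {V : Type u} [Lab V]

private theorem sa_mono {x y : V} (h : x ≤ y) : sg x ≤ sg y := by
  have h1 : x ⊔ y = y := sup_eq_right.2 h
  rw [← h1, sg_sup]
  exact le_sup_left

private theorem sa_bot : sg (⊥ : V) = ⊥ := by
  apply le_antisymm _ bot_le
  have h1 : sg (⊥ : V) ≤ sg (sg ⊥) := sa_mono bot_le
  rwa [sg_sg] at h1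

private theorem sa_hmono {W : Type u} [Lab W] {F : V → W} (hF : IsHom F) {x y : V} (h : x ≤ y) :
    F x ≤ F y := by
  have h1 : x ⊔ y = y := sup_eq_right.2 h
  rw [← h1, hF.sup]
  exact le_sup_left

variable {Z : Type u} {D : Z → Z → V}

private theorem sa_symm (hD : IsSp D) {x y : Z} (h : D x y = ⊥) : D y x = ⊥ := by
  rw [hD.symm x y, h, sa_bot]

private theorem sa_trans (hD : IsSp D) {x y z : Z} (h : D x y = ⊥) (h' : D y z = ⊥) :
    D x z = ⊥ := by
  apply le_antisymm _ bot_le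
  refine (hD.tri x y z).trans ?_
  rw [h, h', sup_bot_eq]

private theorem sa_left (hD : IsSp D) {x y : Z} (h : D x y = ⊥) (z : Z) : D x z = D y z := by
  apply le_antisymm
  · refine (hD.tri x y z).trans ?_
    rw [h, bot_sup_eq]
  · refine (hD.tri y x z).trans ?_
    rw [sa_symm hD h, bot_sup_eq]

private theorem sa_right (hD : IsSp D) {x y : Z} (h : D x y = ⊥) (z : Z) : D z x = D z y := by
  rw [hD.symm x z, hD.symm y z, sa_left hD h]

end basic

private theorem ty_one {V : Type u} [Lab V] {X : Type u} {d : X → X → V} (hd : IsSp d) (w : X)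
    (s : V) (f : X → V) (hf : ∀ u, f u = d u w ⊔ s) : Ty d f := by
  have h0 : sg (d w w) = ⊥ := by rw [← hd.symm, hd.self]
  refine ⟨w, w, s, s, ?_, le_sup_right, le_sup_right, fun u => ⟨(hf u).le, (hf u).le, Or.inl (hf u)⟩⟩
  rw [h0]
  exact bot_le

theorem tSat (hTyp : S_Typ.{u}) (hTrn : S_Trn.{u}) (hTwr : S_Twr.{u}) (hLim : S_Lim.{u})
    (hExt : S_Ext.{u}) (hJ : S_Jgd.{u}) (hS : S_Sgd.{u}) (hN : S_Ngd.{u}) : S_Sat.{u} := by
  intro I V _
  obtain ⟨T, hT0, hT1, hTy, hTk⟩ := hTwr I V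
  choose Z D e hL using fun i => hLim (V i) (T i)
  -- the extension property
  have EL : ∀ (i k : I) (P : V i → V k), IsHom P → ∀ (n : ℕ)
      (g : (T i).X n → (T k).X (n + 1)),
      (∀ x y, (T k).d (n + 1) (g x) (g y) = P ((T i).d n x y)) →
      ∃ g' : (T i).X (n + 1) → (T k).X (n + 2),
        (∀ x y, (T k).d (n + 2) (g' x) (g' y) = P ((T i).d (n + 1) x y)) ∧
        ∀ x, (T k).d (n + 2) ((T k).j (n + 1) (g x)) (g' ((T i).j n x)) = ⊥ := by
    intro i k P hP n g hg
    have ty := fun y : (T i).X (n + 1) => hTrn (V i) (V k) _ _ P hP _ _ ((T i).sp n)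
      ((T k).sp (n + 1)) g hg _ (hTy i n y)
    choose f' h1 h2 h3 using ty
    have hspi := (T i).sp (n + 1)
    have hspk := (T k).sp (n + 1)
    have task : IsTask ((T k).d (n + 1)) (fun y z => P ((T i).d (n + 1) y z)) f' := by
      refine ⟨⟨?_, ?_, ?_⟩, h1, ?_, ?_⟩
      · intro x
        rw [hspi.self, hP.bot]
      · intro x y
        rw [hspi.symm x y, hP.sg]
      · intro x y z
        rw [← hP.sup]
        exact sa_hmono hP (hspi.tri x y z)
      · intro y z u'
        obtain ⟨w, hw⟩ := h3 y u'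
        rw [hw]
        refine ((hTyp (V k) _ _ hspk _ (h1 z)).1 u' (g w)).trans ?_
        rw [h2, sup_assoc, ← hP.sup]
        exact sup_le_sup le_rfl (sa_hmono hP (hspi.tri _ _ _))
      · intro y z u'
        obtain ⟨w, hw⟩ := h3 y u'
        have h4 : P ((T i).d (n + 1) y z) ≤
            sg (P ((T i).d (n + 1) ((T i).j n w) y)) ⊔ f' z (g w) := by
          rw [h2, ← hP.sg, ← hP.sup, ← hspi.symm]
          exact sa_hmono hP (hspi.tri _ _ _)
        refine h4.trans ?_
        rw [hw, sg_sup, ← hspk.symm]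
        refine sup_le (le_sup_right.trans le_sup_left) ?_
        refine ((hTyp (V k) _ _ hspk _ (h1 z)).1 (g w) u').trans ?_
        exact sup_le (le_sup_left.trans le_sup_left) le_sup_right
    obtain ⟨kk, hk1, hk2⟩ := hTk k (n + 1) ((T i).X (n + 1)) _ f' (fun y => (⟨i, y⟩, 0)) (by
      intro y z hyz
      simpa using hyz) task
    refine ⟨kk, hk1, fun x => ?_⟩
    rw [hk2, h2, hspi.self, hP.bot]
  have hid : ∀ i, IsHom (fun v : V i => v) := fun i => ⟨fun _ _ => rfl, rfl, fun _ => rfl⟩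
  have EX : ∀ (i : I) (n : ℕ) (g : (T i).X n → (T i).X (n + 1)),
      (∀ x y, (T i).d (n + 1) (g x) (g y) = (T i).d n x y) →
      ∃ G : Z i → Z i, (∀ x y, D i (G x) (G y) = D i x y) ∧
        ∀ x, D i (G (e i n x)) (e i (n + 1) (g x)) = ⊥ := by
    intro i n g hg
    exact hExt (V i) (V i) _ (hid i) (T i) (T i) _ _ _ _ _ _ (hL i) (hL i)
      (EL i i _ (hid i)) n g hg
  have stage : ∀ (i : I) (z : Z i), ∃ n₀, ∀ n, n₀ ≤ n → ∃ x, D i (e i n x) z = ⊥ := by
    intro i z
    obtain ⟨n₀, x₀, hx₀⟩ := (hL i).surj z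
    refine ⟨n₀, ?_⟩
    intro n hn
    induction n, hn using Nat.le_induction with
    | base => exact ⟨x₀, by rw [hx₀, (hL i).sp.self]⟩
    | succ n _ ih =>
      obtain ⟨x, hx⟩ := ih
      exact ⟨(T i).j n x, sa_trans (hL i).sp (sa_symm (hL i).sp ((hL i).comp n x)) hx⟩
  have pt : ∀ i, (T i).X 0 := fun i => (hT0 i).some
  have HO : ∀ i (a b c e : Z i), D i c e ≤ D i a b →
      (sg (D i a b) = D i a b ∨ D i c e = D i a b) →
      Relation.ReflTransGen (fun x y => D i x y = ⊥ ∨ ∃ f : Z i → Z i,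
        (∀ p q, D i (f p) (f q) = D i p q) ∧ D i (f a) x = ⊥ ∧ D i (f b) y = ⊥) c e := by
    intro i a b c c' hle hcase
    have hD := (hL i).sp
    obtain ⟨na, ha⟩ := stage i a
    obtain ⟨nb, hb⟩ := stage i b
    obtain ⟨nc, hc⟩ := stage i c
    obtain ⟨ne, he⟩ := stage i c'
    obtain ⟨xa, hxa⟩ := ha (max (max na nb) (max nc ne)) (by omega)
    obtain ⟨xb, hxb⟩ := hb (max (max na nb) (max nc ne)) (by omega)
    obtain ⟨xc, hxc⟩ := hc (max (max na nb) (max nc ne)) (by omega)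
    obtain ⟨xe, hxe⟩ := he (max (max na nb) (max nc ne)) (by omega)
    generalize max (max na nb) (max nc ne) = n at xa xb xc xe hxa hxb hxc hxe
    have hdab : (T i).d n xa xb = D i a b := by
      rw [← (hL i).iso, sa_left hD hxa, sa_right hD hxb]
    have hdce : (T i).d n xc xe = D i c c' := by
      rw [← (hL i).iso, sa_left hD hxc, sa_right hD hxe]
    have up : ∀ {x : (T i).X n} {z : Z i}, D i (e i n x) z = ⊥ →
        D i (e i (n + 1) ((T i).j n x)) z = ⊥ := fun {x z} h =>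
      sa_trans hD (sa_symm hD ((hL i).comp n x)) h
    -- one step
    have step : ∀ (g : (T i).X n → (T i).X (n + 1)),
        (∀ x y, (T i).d (n + 1) (g x) (g y) = (T i).d n x y) → ∀ (p q : Z i),
        D i (e i (n + 1) (g xa)) p = ⊥ → D i (e i (n + 1) (g xb)) q = ⊥ →
        ∃ f : Z i → Z i, (∀ p q, D i (f p) (f q) = D i p q) ∧ D i (f a) p = ⊥ ∧
          D i (f b) q = ⊥ := by
      intro g hg p q hp hq
      obtain ⟨G, hG1, hG2⟩ := EX i n g hg
      refine ⟨G, hG1, ?_, ?_⟩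
      · refine sa_trans hD ?_ (sa_trans hD (hG2 xa) hp)
        rw [hG1]
        exact sa_symm hD hxa
      · refine sa_trans hD ?_ (sa_trans hD (hG2 xb) hq)
        rw [hG1]
        exact sa_symm hD hxb
    by_cases hs : sg (D i a b) = D i a b
    · obtain ⟨E, f, task, h0, h1, h2, h3, h4⟩ := hS (V i) _ _ ((T i).sp n) xa xb xc xe
        (by rw [hdab]; exact hs) (by rw [hdab, hdce]; exact hle)
      obtain ⟨k, hk1, hk2⟩ := hTk i n _ E f (fun p => (⟨i, p.1⟩, p.2)) (by
        rintro ⟨p1, p2⟩ ⟨q1, q2⟩ hpq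
        simpa using hpq) task
      have iso : ∀ l x y, (T i).d (n + 1) (k (x, l)) (k (y, l)) = (T i).d n x y := by
        intro l x y
        rw [hk1, h0]
      have s1 := step (fun x => k (x, 0)) (iso 0) c (e i (n + 1) (k (xb, 0))) (by
        refine sa_trans hD (sa_symm hD ?_) (up hxc)
        rw [(hL i).iso, hk2, h1]) (hD.self _)
      have s2 := step (fun x => k (x, 1)) (iso 1) (e i (n + 1) (k (xb, 0)))
        (e i (n + 1) (k (xb, 1))) (by
        apply sa_symm hD
        rw [(hL i).iso, hk1, h2]) (hD.self _)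
      have s3 := step (fun x => k (x, 2)) (iso 2) (e i (n + 1) (k (xb, 1))) c' (by
        apply sa_symm hD
        rw [(hL i).iso, hk1, h3]) (by
        refine sa_trans hD (sa_symm hD ?_) (up hxe)
        rw [(hL i).iso, hk2, h4])
      exact Relation.ReflTransGen.head (b := e i (n + 1) (k (xb, 0))) (Or.inr s1)
        (Relation.ReflTransGen.head (b := e i (n + 1) (k (xb, 1))) (Or.inr s2)
          (Relation.ReflTransGen.single (Or.inr s3)))
    · have h : D i c c' = D i a b := hcase.resolve_left hs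
      obtain ⟨E, f, task, h0, h1, h2, h3⟩ := hN (V i) _ _ ((T i).sp n) xa xb xc xe
        (by rw [hdab, hdce]; exact h)
      obtain ⟨k, hk1, hk2⟩ := hTk i n _ E f (fun p => (⟨i, p.1⟩, p.2)) (by
        rintro ⟨p1, p2⟩ ⟨q1, q2⟩ hpq
        simpa using hpq) task
      have iso : ∀ l x y, (T i).d (n + 1) (k (x, l)) (k (y, l)) = (T i).d n x y := by
        intro l x y
        rw [hk1, h0]
      have s1 := step (fun x => k (x, 0)) (iso 0) c (e i (n + 1) (k (xb, 0))) (by
        refine sa_trans hD (sa_symm hD ?_) (up hxc)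
        rw [(hL i).iso, hk2, h1]) (hD.self _)
      have s2 := step (fun x => k (x, 1)) (iso 1) (e i (n + 1) (k (xb, 0))) c' (by
        apply sa_symm hD
        rw [(hL i).iso, hk1, h2]) (by
        refine sa_trans hD (sa_symm hD ?_) (up hxe)
        rw [(hL i).iso, hk2, h3])
      exact Relation.ReflTransGen.head (b := e i (n + 1) (k (xb, 0))) (Or.inr s1)
        (Relation.ReflTransGen.single (Or.inr s2))
  have TR0 : ∀ i (t₁ t₂ : V i), ∃ a p b, D i a p = t₁ ∧ D i p b = t₂ ∧ D i a b = t₁ ⊔ t₂ := by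
    intro i t₁ t₂
    let κ : V i := (t₁ ⊔ t₂) ⊔ sg (t₁ ⊔ t₂)
    have hκ1 : t₁ ≤ κ := le_sup_left.trans le_sup_left
    have hκ2 : t₂ ≤ κ := le_sup_right.trans le_sup_left
    have hκ3 : sg t₁ ≤ κ := (sa_mono le_sup_left).trans le_sup_right
    have hκ4 : sg t₂ ≤ κ := (sa_mono le_sup_right).trans le_sup_right
    have hκs : sg κ = κ := by
      show sg ((t₁ ⊔ t₂) ⊔ sg (t₁ ⊔ t₂)) = (t₁ ⊔ t₂) ⊔ sg (t₁ ⊔ t₂)
      rw [sg_sup, sg_sg, sup_comm]
    let E : Fin 3 → Fin 3 → V i := ![![⊥, t₁, t₁ ⊔ t₂], ![sg t₁, ⊥, t₂],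
      ![sg (t₁ ⊔ t₂), sg t₂, ⊥]]
    have hE1 : ∀ x, E x x = ⊥ := by
      intro x
      fin_cases x <;> rfl
    have hE2 : ∀ x y, E y x = sg (E x y) := by
      intro x y
      fin_cases x <;> fin_cases y <;> simp [E, sg_sg, sa_bot]
    have hE4 : ∀ x y, E x y ≤ κ := by
      intro x y
      fin_cases x <;> fin_cases y
      · exact bot_le
      · exact hκ1
      · exact le_sup_left
      · exact hκ3
      · exact bot_le
      · exact hκ2
      · exact le_sup_right
      · exact hκ4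
      · exact bot_le
    have hE3 : ∀ x y z, E x z ≤ E x y ⊔ E y z := by
      intro x y z
      fin_cases x <;> fin_cases y <;> fin_cases z <;> simp [E, sg_sup]
      · exact le_sup_left.trans le_sup_left
      · exact le_sup_right.trans le_sup_right
      · exact le_sup_left.trans le_sup_right
      · exact le_sup_right.trans le_sup_left
    obtain ⟨k, hk1, hk2⟩ := hTk i 0 (ULift (Fin 3)) (fun x y => E x.down y.down)
      (fun _ u => (T i).d 0 u (pt i) ⊔ κ) (fun x => (⟨i, pt i⟩, x.down)) (by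
        rintro ⟨x⟩ ⟨y⟩ hxy
        simpa using hxy)
      ⟨⟨fun x => hE1 _, fun x y => hE2 _ _, fun x y z => hE3 _ _ _⟩,
        fun _ => ty_one ((T i).sp 0) (pt i) κ _ (fun _ => rfl), fun _ _ _ => le_sup_left,
        fun x y u => (hE4 _ _).trans (le_sup_right.trans le_sup_right)⟩
    refine ⟨e i 1 (k ⟨0⟩), e i 1 (k ⟨1⟩), e i 1 (k ⟨2⟩), ?_, ?_, ?_⟩ <;>
      rw [(hL i).iso, hk1] <;> rfl
  have TRI : ∀ i (a b : Z i) (t₁ t₂ : V i), D i a b = t₁ ⊔ t₂ →
      Relation.ReflTransGen (fun x y => D i x y ≤ t₁ ∨ D i x y ≤ t₂) a b := by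
    intro i a b t₁ t₂ hab
    have hD := (hL i).sp
    obtain ⟨a', p, b', h1, h2, h3⟩ := TR0 i t₁ t₂
    have h4 := HO i a' b' a b (by rw [hab, h3]) (Or.inr (by rw [hab, h3]))
    clear hab
    induction h4 with
    | refl => exact Relation.ReflTransGen.refl
    | @tail y z _ hyz ih =>
      refine ih.trans ?_
      rcases hyz with hyz | ⟨f, hf, hy, hz⟩
      · refine Relation.ReflTransGen.single (Or.inl ?_)
        rw [hyz]
        exact bot_le
      · have s1 : D i y (f p) ≤ t₁ := by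
          rw [← sa_left hD hy, hf, h1]
        have s2 : D i (f p) z ≤ t₂ := by
          rw [← sa_right hD hz, hf, h2]
        exact Relation.ReflTransGen.head (b := f p) (Or.inl s1)
          (Relation.ReflTransGen.single (Or.inr s2))
  refine ⟨Z, D, fun i => (hL i).sp, fun i => ⟨e i 0 (pt i)⟩, ?_, ?_, ?_, ?_⟩
  · -- joins
    intro i a b t₁ t₂ hab hcase
    have hD := (hL i).sp
    by_cases hs : sg (t₁ ⊔ t₂) = t₁ ⊔ t₂
    · obtain ⟨na, ha⟩ := stage i a
      obtain ⟨nb, hb⟩ := stage i b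
      obtain ⟨x, hx⟩ := ha (max na nb) (le_max_left _ _)
      obtain ⟨y, hy⟩ := hb (max na nb) (le_max_right _ _)
      generalize max na nb = n at x y hx hy
      have hxy : (T i).d n x y ≤ t₁ ⊔ t₂ := by
        rw [← (hL i).iso, sa_left hD hx, sa_right hD hy]
        exact hab
      obtain ⟨E, f, task, p, q, r, h1, h2, h3, h4⟩ := hJ (V i) _ _ ((T i).sp n) x y t₁ t₂ hs hxy
      obtain ⟨k, hk1, hk2⟩ := hTk i n _ E f (fun p => (⟨i, p.1⟩, p.2)) (by
        rintro ⟨p1, p2⟩ ⟨q1, q2⟩ hpq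
        simpa using hpq) task
      have hax : D i (e i (n + 1) ((T i).j n x)) a = ⊥ :=
        sa_trans hD (sa_symm hD ((hL i).comp n x)) hx
      have hby : D i (e i (n + 1) ((T i).j n y)) b = ⊥ :=
        sa_trans hD (sa_symm hD ((hL i).comp n y)) hy
      have s1 : D i a (e i (n + 1) (k p)) = t₁ := by
        rw [← sa_left hD hax, (hL i).iso, hk2, h1]
      have s2 : D i (e i (n + 1) (k p)) (e i (n + 1) (k q)) = t₂ := by
        rw [(hL i).iso, hk1, h2]
      have s3 : D i (e i (n + 1) (k q)) (e i (n + 1) (k r)) = t₁ := by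
        rw [(hL i).iso, hk1, h3]
      have s4 : D i (e i (n + 1) (k r)) b = t₂ := by
        rw [← sa_right hD hby, hD.symm, (hL i).iso, hk2, h4, sg_sg]
      exact Relation.ReflTransGen.head (b := e i (n + 1) (k p)) (Or.inl s1.le)
        (Relation.ReflTransGen.head (b := e i (n + 1) (k q)) (Or.inr s2.le)
          (Relation.ReflTransGen.head (b := e i (n + 1) (k r)) (Or.inl s3.le)
            (Relation.ReflTransGen.single (Or.inr s4.le))))
    · have hab' : D i a b = t₁ ⊔ t₂ := hcase.resolve_left hs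
      exact TRI i a b t₁ t₂ hab'
  · exact HO
  · -- cross maps
    intro i k P hP
    obtain ⟨G, hG, -⟩ := hExt (V i) (V k) _ hP (T i) (T k) _ _ _ _ _ _ (hL i) (hL k)
      (EL i k _ hP) 0 (fun _ => (T k).j 0 (pt k)) (by
        intro x y
        rw [hT1 i x y, ((T k).sp _).self, ((T i).sp _).self, hP.bot])
    exact ⟨G, hG⟩
  · -- labels
    intro i v
    have hD := (hL i).sp
    obtain ⟨k, hk1, hk2⟩ := hTk i 0 PUnit (fun _ _ => ⊥) (fun _ u => (T i).d 0 u (pt i) ⊔ v)
      (fun _ => (⟨i, pt i⟩, 0)) (fun x y _ => rfl)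
      ⟨⟨fun _ => rfl, fun _ _ => sa_bot.symm, fun _ _ _ => bot_le⟩,
        fun _ => ty_one ((T i).sp 0) (pt i) v _ (fun _ => rfl), fun _ _ _ => le_sup_left, fun _ _ _ => bot_le⟩
    refine ⟨e i 0 (pt i), e i 1 (k PUnit.unit), ?_⟩
    rw [sa_left hD ((hL i).comp 0 (pt i)), (hL i).iso, hk2, ((T i).sp 0).self, bot_sup_eq]

end MP81H
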