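import Pool.Agent.Lib.MP_81b71e_H.Defs

/-!
# MP_81b71e_al, theorem K*: statements
-/

set_option autoImplicit false

namespace MP81H

open Pool.Agent.Lib.MP_81b71e_al

universe u

/-- The triangle inequalities for the types. -/
def S_Typ : Prop :=
  ∀ (V X : Type u) [Lab V] (d : X → X → V), IsSp d → ∀ f : X → V, Ty d f →
    (∀ u v, f u ≤ d u v ⊔ f v) ∧ ∀ u v, d u v ≤ f u ⊔ sg (f v)

/-- The distance between two new points. -/
def S_Lst : Prop :=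
  ∀ (V X : Type u) [Lab V] (d : X → X → V), IsSp d → ∀ f g : X → V, Ty d f → Ty d g →
    ∃ u, ∀ v, sg (f u) ⊔ g u ≤ sg (f v) ⊔ g v

/-- Types are transported along maps which are isometric after a homomorphism of the labels. -/
def S_Trn : Prop :=
  ∀ (V W X Y : Type u) [Lab V] [Lab W] (F : V → W), IsHom F → ∀ (d : X → X → V) (d' : Y → Y → W),
    IsSp d → IsSp d' → ∀ g : X → Y, (∀ x y, d' (g x) (g y) = F (d x y)) →
    ∀ f : X → V, Ty d f → ∃ f' : Y → W, Ty d' f' ∧ (∀ u, f' (g u) = F (f u)) ∧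
      ∀ u', ∃ w, f' u' = d' u' (g w) ⊔ F (f w)

/-- All tasks at once. -/
def S_Amg : Prop :=
  ∀ (V X B : Type u) [Lab V] (d : X → X → V), IsSp d →
    ∃ (X' : Type u) (d' : X' → X' → V) (j : X → X'), IsSp d' ∧ (∀ x y, d' (j x) (j y) = d x y) ∧
      (∀ y, Ty d (fun u => d' (j u) y)) ∧
      ∀ (Y : Type u) (D : Y → Y → V) (f : Y → X → V) (i : Y → B), Function.Injective i →
        IsTask d D f → ∃ k : Y → X', (∀ y z, d' (k y) (k z) = D y z) ∧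
          ∀ y u, d' (j u) (k y) = f y u

/-- Several copies of a space connected by links. -/
def S_Lnk : Prop :=
  ∀ (V X : Type u) [Lab V] (d : X → X → V), IsSp d → ∀ (I : Type) (Λ : I → I → Set (X × V × X)),
    (∀ i (l : X × V × X), l ∈ Λ i i ↔ l.1 = l.2.2 ∧ l.2.1 = ⊥) →
    (∀ i j (l : X × V × X), l ∈ Λ i j → (l.2.2, sg l.2.1, l.1) ∈ Λ j i) →
    (∀ i j k, i ≠ j → j ≠ k → ∀ l ∈ Λ i j, ∀ m ∈ Λ j k, ∃ n ∈ Λ i k,
      d l.1 n.1 ⊔ n.2.1 ⊔ d n.2.2 m.2.2 ≤ l.2.1 ⊔ d l.2.2 m.1 ⊔ m.2.1) →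
    (∀ i j, i ≠ j → ∀ x y, ∃ l ∈ Λ i j, ∀ m ∈ Λ i j,
      d x l.1 ⊔ l.2.1 ⊔ d l.2.2 y ≤ d x m.1 ⊔ m.2.1 ⊔ d m.2.2 y) →
    ∃ D : X × I → X × I → V, IsSp D ∧ (∀ i x y, D (x, i) (y, i) = d x y) ∧
      ∀ i j x y, (∀ l ∈ Λ i j, D (x, i) (y, j) ≤ d x l.1 ⊔ l.2.1 ⊔ d l.2.2 y) ∧
        ∃ l ∈ Λ i j, D (x, i) (y, j) = d x l.1 ⊔ l.2.1 ⊔ d l.2.2 y

/-- The join gadget. -/
def S_Jgd : Prop :=
  ∀ (V X : Type u) [Lab V] (d : X → X → V), IsSp d → ∀ (a b : X) (t₁ t₂ : V),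
    sg (t₁ ⊔ t₂) = t₁ ⊔ t₂ → d a b ≤ t₁ ⊔ t₂ →
    ∃ (D : X × Fin 3 → X × Fin 3 → V) (f : X × Fin 3 → X → V), IsTask d D f ∧
      ∃ p q r, f p a = t₁ ∧ D p q = t₂ ∧ D q r = t₁ ∧ f r b = sg t₂

/-- Symmetric label: a 4-cycle of four copies (copy `3` is the given space). -/
def S_Sgd : Prop :=
  ∀ (V X : Type u) [Lab V] (d : X → X → V), IsSp d → ∀ a b c e : X,
    sg (d a b) = d a b → d c e ≤ d a b →
    ∃ (D : X × Fin 3 → X × Fin 3 → V) (f : X × Fin 3 → X → V), IsTask d D f ∧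
      (∀ i x y, D (x, i) (y, i) = d x y) ∧ f (a, 0) c = ⊥ ∧ D (b, 0) (a, 1) = ⊥ ∧
      D (b, 1) (a, 2) = ⊥ ∧ f (b, 2) e = ⊥

/-- Equal labels: a 3-cycle of three copies (copy `2` is the given space). -/
def S_Ngd : Prop :=
  ∀ (V X : Type u) [Lab V] (d : X → X → V), IsSp d → ∀ a b c e : X, d c e = d a b →
    ∃ (D : X × Fin 3 → X × Fin 3 → V) (f : X × Fin 3 → X → V), IsTask d D f ∧
      (∀ i x y, D (x, i) (y, i) = d x y) ∧ f (a, 0) c = ⊥ ∧ D (b, 0) (a, 1) = ⊥ ∧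
      f (b, 1) e = ⊥

/-- The limit of a tower. -/
def S_Lim : Prop :=
  ∀ (V : Type u) [Lab V] (T : Tower V), ∃ (Z : Type u) (D : Z → Z → V) (e : ∀ n, T.X n → Z),
    IsLim T D e

/-- Extension of maps to the limits. -/
def S_Ext : Prop :=
  ∀ (V W : Type u) [Lab V] [Lab W] (F : V → W), IsHom F → ∀ (T : Tower V) (T' : Tower W)
    (Z Z' : Type u) (D : Z → Z → V) (D' : Z' → Z' → W) (e : ∀ n, T.X n → Z)
    (e' : ∀ n, T'.X n → Z'), IsLim T D e → IsLim T' D' e' →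
    (∀ (n : ℕ) (g : T.X n → T'.X (n + 1)), (∀ x y, T'.d (n + 1) (g x) (g y) = F (T.d n x y)) →
      ∃ g' : T.X (n + 1) → T'.X (n + 2),
        (∀ x y, T'.d (n + 2) (g' x) (g' y) = F (T.d (n + 1) x y)) ∧
        ∀ x, T'.d (n + 2) (T'.j (n + 1) (g x)) (g' (T.j n x)) = ⊥) →
    ∀ (n₀ : ℕ) (g₀ : T.X n₀ → T'.X (n₀ + 1)),
      (∀ x y, T'.d (n₀ + 1) (g₀ x) (g₀ y) = F (T.d n₀ x y)) →
      ∃ G : Z → Z', (∀ x y, D' (G x) (G y) = F (D x y)) ∧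
        ∀ x, D' (G (e n₀ x)) (e' (n₀ + 1) (g₀ x)) = ⊥

/-- The towers. -/
def S_Twr : Prop :=
  ∀ (I : Type u) (V : I → Type u) [∀ i, Lab (V i)], ∃ T : ∀ i, Tower (V i),
    (∀ i, Nonempty ((T i).X 0)) ∧ (∀ i (x y : (T i).X 0), x = y) ∧
    (∀ i n y, Ty ((T i).d n) (fun u => (T i).d (n + 1) ((T i).j n u) y)) ∧
    ∀ i n (Y : Type u) (D : Y → Y → V i) (f : Y → (T i).X n → V i)
      (q : Y → (Σ k, (T k).X n) × Fin 3), Function.Injective q → IsTask ((T i).d n) D f →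
      ∃ k : Y → (T i).X (n + 1), (∀ y z, (T i).d (n + 1) (k y) (k z) = D y z) ∧
        ∀ y u, (T i).d (n + 1) ((T i).j n u) (k y) = f y u

/-- The saturated spaces. -/
def S_Sat : Prop :=
  ∀ (I : Type u) (V : I → Type u) [∀ i, Lab (V i)],
    ∃ (Z : I → Type u) (D : ∀ i, Z i → Z i → V i),
    (∀ i, IsSp (D i)) ∧ (∀ i, Nonempty (Z i)) ∧
    (∀ i (a b : Z i) (t₁ t₂ : V i), D i a b ≤ t₁ ⊔ t₂ →
      (sg (t₁ ⊔ t₂) = t₁ ⊔ t₂ ∨ D i a b = t₁ ⊔ t₂) →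
      Relation.ReflTransGen (fun x y => D i x y ≤ t₁ ∨ D i x y ≤ t₂) a b) ∧
    (∀ i (a b c e : Z i), D i c e ≤ D i a b → (sg (D i a b) = D i a b ∨ D i c e = D i a b) →
      Relation.ReflTransGen (fun x y => D i x y = ⊥ ∨ ∃ f : Z i → Z i,
        (∀ p q, D i (f p) (f q) = D i p q) ∧ D i (f a) x = ⊥ ∧ D i (f b) y = ⊥) c e) ∧
    (∀ i k (P : V i → V k), IsHom P → ∃ f : Z i → Z k, ∀ p q, D k (f p) (f q) = P (D i p q)) ∧
    ∀ i (v : V i), ∃ a b, D i a b = v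

/-- From a pseudo space to `Realizable`. -/
def S_Rlz : Prop :=
  ∀ (L : Type u) [CompleteLattice L] [IsCompactlyGenerated L] (θ : L ≃o L) (A : Type u)
    (d : A → A → L), (∀ x, θ (θ x) = x) → Nonempty A → GSp θ d → Realizable L {x | θ x = x}

/-- `ψ` preserves compactness, the joins of compact elements and commutes on the compact elements
with `θ`; it is decreasing there. -/
structure Ctr {L : Type u} [CompleteLattice L] (θ : L ≃o L) (ψ : L → L) : Prop where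
  cp : ∀ x, IsCompactElement x → IsCompactElement (ψ x)
  sp : ∀ x y, IsCompactElement x → IsCompactElement y → ψ (x ⊔ y) = ψ x ⊔ ψ y
  cm : ∀ x, IsCompactElement x → ψ (θ x) = θ (ψ x)
  le : ∀ x, IsCompactElement x → ψ x ≤ x

/-- THEOREM K*. -/
def S_Ker : Prop :=
  ∀ (L : Type u) [CompleteLattice L] [IsCompactlyGenerated L] (θ : L ≃o L) (I : Type u)
    (φ : I → L → L), (∀ x, θ (θ x) = x) → (∀ i, Ctr θ (φ i)) →
    (∀ i x, IsCompactElement x → φ i (φ i x) = φ i x) →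
    (∀ x, IsCompactElement x → ∃ T : Finset I, x ≤ T.sup (fun i => φ i x)) →
    (∀ i t r q g k, IsCompactElement t → IsCompactElement r → IsCompactElement q →
      IsCompactElement g → IsCompactElement k → φ i t = t → φ i r = r → φ i q = q → φ i g = g →
      φ i k = k → r ≤ q ⊔ θ t → q ≤ r ⊔ t → t ≤ θ r ⊔ q → θ t ≤ k → k ≤ θ t ⊔ g → g ≤ t ⊔ k →
      r ⊔ g ≤ q ⊔ k ∨ q ⊔ k ≤ r ⊔ g) →
    (∀ i x y, IsCompactElement x → IsCompactElement y → φ i x = x → φ i y = y → θ x ≠ x → y < x →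
      y ≠ ⊥ → ∃ ψ : L → L, Ctr θ ψ ∧ y ≤ ψ x ∧ (θ (ψ x) = ψ x ∨ ψ x = y)) →
    Realizable L {x | θ x = x}

end MP81H
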