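import Pool.Agent.Lib.MP_81b71e_H.Spec

/-! The triangle inequalities for the types. -/

set_option autoImplicit false

namespace MP81H

universe u

private theorem sgm {V : Type u} [Lab V] {x y : V} (h : x ≤ y) : sg x ≤ sg y := by
  have h1 : x ⊔ y = y := sup_eq_right.2 h
  have h2 : sg x ⊔ sg y = sg y := by rw [← sg_sup, h1]
  exact sup_eq_right.1 h2

theorem tTyp : S_Typ.{u} := by
  intro V X _ d hd f hf
  obtain ⟨c, e, g, k, hk, -, -, hf⟩ := hf
  have hk' : d c e ≤ sg k := by
    have h1 := sgm hk
    rwa [sg_sg] at h1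
  refine ⟨fun u v => ?_, fun u v => ?_⟩
  · rcases (hf v).2.2 with h | h
    · rw [h, ← sup_assoc]
      exact (hf u).1.trans (sup_le_sup_right (hd.tri u v c) g)
    · rw [h, ← sup_assoc]
      exact (hf u).2.1.trans (sup_le_sup_right (hd.tri u v e) k)
  · rcases (hf u).2.2 with hu | hu <;> rcases (hf v).2.2 with hv | hv <;>
      rw [hu, hv, sg_sup, ← hd.symm]
    · exact (hd.tri u c v).trans (sup_le_sup le_sup_left le_sup_left)
    · refine (hd.tri u c v).trans (sup_le (le_sup_left.trans le_sup_left) ?_)
      refine (hd.tri c e v).trans (sup_le ?_ (le_sup_left.trans le_sup_right))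
      exact hk'.trans (le_sup_right.trans le_sup_right)
    · refine (hd.tri u e v).trans (sup_le (le_sup_left.trans le_sup_left) ?_)
      refine (hd.tri e c v).trans (sup_le ?_ (le_sup_left.trans le_sup_right))
      rw [hd.symm c e]
      exact hk.trans (le_sup_right.trans le_sup_left)
    · exact (hd.tri u e v).trans (sup_le_sup le_sup_left le_sup_left)

end MP81H
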